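import Pool.Agent.Lib.EngelQ.Tab

/-!
# The group `L` (alternating group of degree five)
-/

namespace EngelQ

theorem chk_act : allLt (fun a => allLt (fun b => force (mulT a b) fun m => (Nat.ble m 59) &&
    allLt (fun p => Nat.beq (actT m p) (actT b (actT a p))) 5) 60) 60 = true := by
  decide +kernel

theorem chk_actlt : allLt (fun a => allLt (fun p => Nat.ble (actT a p) 4) 5) 60 = true := by
  decide +kernel

theorem chk_inj : allLt (fun a => allLt (fun b => Nat.beq a b ||
    !(allLt (fun p => Nat.beq (actT a p) (actT b p)) 5)) 60) 60 = true := by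
  decide +kernel

theorem chk_inv : allLt (fun a => Nat.ble (invT a) 59 && Nat.beq (mulT (invT a) a) 0) 60 = true := by
  decide +kernel

theorem chk_one : allLt (fun a => Nat.beq (mulT 0 a) a) 60 = true := by
  decide +kernel

theorem chk_coc : allLt (fun a => allLt (fun b => force (mulT a b) fun m =>
    allLt (fun p => Nat.beq ((3 * cT m p) % 9) ((3 * (cT a p + cT b (actT a p))) % 9)) 5) 60) 60
    = true := by
  decide +kernel

lemma mulT_lt {a b : ℕ} (ha : a < 60) (hb : b < 60) : mulT a b < 60 := by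
  have h := (allLt_iff _ _).1 chk_act a ha
  have h2 := (allLt_iff _ _).1 h b hb
  rw [force_eq, Bool.and_eq_true] at h2
  exact Nat.lt_succ_of_le (Nat.le_of_ble_eq_true h2.1)

lemma actT_mulT {a b p : ℕ} (ha : a < 60) (hb : b < 60) (hp : p < 5) :
    actT (mulT a b) p = actT b (actT a p) := by
  have h := (allLt_iff _ _).1 chk_act a ha
  have h2 := (allLt_iff _ _).1 h b hb
  rw [force_eq, Bool.and_eq_true] at h2
  exact Nat.eq_of_beq_eq_true ((allLt_iff _ _).1 h2.2 p hp)

lemma actT_lt {a p : ℕ} (ha : a < 60) (hp : p < 5) : actT a p < 5 := by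
  have h := (allLt_iff _ _).1 chk_actlt a ha
  have h2 := (allLt_iff _ _).1 h p hp
  exact Nat.lt_succ_of_le (Nat.le_of_ble_eq_true h2)

lemma invT_lt {a : ℕ} (ha : a < 60) : invT a < 60 := by
  have h := (allLt_iff _ _).1 chk_inv a ha
  rw [Bool.and_eq_true] at h
  exact Nat.lt_succ_of_le (Nat.le_of_ble_eq_true h.1)

lemma cT_mulT {a b p : ℕ} (ha : a < 60) (hb : b < 60) (hp : p < 5) :
    (3 * cT (mulT a b) p) % 9 = (3 * (cT a p + cT b (actT a p))) % 9 := by
  have h := (allLt_iff _ _).1 chk_coc a ha
  have h2 := (allLt_iff _ _).1 h b hb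
  rw [force_eq] at h2
  exact Nat.eq_of_beq_eq_true ((allLt_iff _ _).1 h2 p hp)

/-- The group with sixty elements given by the table. -/
def L : Type := Fin 60

instance : DecidableEq L := inferInstanceAs (DecidableEq (Fin 60))
instance : Fintype L := inferInstanceAs (Fintype (Fin 60))

instance : Mul L := ⟨fun a b => (⟨mulT a.1 b.1, mulT_lt a.2 b.2⟩ : Fin 60)⟩
instance : One L := ⟨(⟨0, by norm_num⟩ : Fin 60)⟩
instance : Inv L := ⟨fun a => (⟨invT a.1, invT_lt a.2⟩ : Fin 60)⟩

/-- The number of an element of `L`. -/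
def L.val (a : L) : ℕ := Fin.val a

lemma L.val_lt (a : L) : a.val < 60 := Fin.isLt a
lemma L.ext {a b : L} (h : a.val = b.val) : a = b := Fin.ext h
@[simp] lemma L.val_mul (a b : L) : (a * b).val = mulT a.val b.val := rfl
@[simp] lemma L.val_one : (1 : L).val = 0 := rfl
@[simp] lemma L.val_inv (a : L) : (a⁻¹).val = invT a.val := rfl

/-- The element number `n`. -/
def L.mk (n : ℕ) (h : n < 60) : L := (⟨n, h⟩ : Fin 60)
@[simp] lemma L.val_mk (n : ℕ) (h : n < 60) : (L.mk n h).val = n := rfl

/-- The action of `L` on five points. -/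
def act (a : L) (p : Fin 5) : Fin 5 := ⟨actT a.val p.1, actT_lt a.val_lt p.2⟩

@[simp] lemma act_val (a : L) (p : Fin 5) : (act a p).val = actT a.val p.val := rfl

lemma act_mul (a b : L) (p : Fin 5) : act (a * b) p = act b (act a p) :=
  Fin.ext (actT_mulT a.val_lt b.val_lt p.2)

lemma act_inj {a b : L} (h : ∀ p, act a p = act b p) : a = b := by
  have h1 := (allLt_iff _ _).1 chk_inj a.val a.val_lt
  have h2 := (allLt_iff _ _).1 h1 b.val b.val_lt
  rw [Bool.or_eq_true] at h2
  rcases h2 with h2 | h2
  · exact L.ext (Nat.eq_of_beq_eq_true h2)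
  · exfalso
    have : allLt (fun p => Nat.beq (actT a.val p) (actT b.val p)) 5 = true := by
      rw [allLt_iff]
      intro p hp
      have := congrArg Fin.val (h ⟨p, hp⟩)
      simp only [act_val] at this
      rw [this]
      exact Nat.beq_refl _
    rw [this] at h2
    simp at h2

lemma one_mul' (a : L) : 1 * a = a := by
  apply L.ext
  have h := (allLt_iff _ _).1 chk_one a.val a.val_lt
  exact Nat.eq_of_beq_eq_true h

lemma inv_mul' (a : L) : a⁻¹ * a = 1 := by
  apply L.ext
  have h := (allLt_iff _ _).1 chk_inv a.val a.val_lt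
  rw [Bool.and_eq_true] at h
  exact Nat.eq_of_beq_eq_true h.2

instance : Group L := Group.ofLeftAxioms
  (fun a b c => act_inj fun p => by simp only [act_mul]) one_mul' inv_mul'

@[simp] lemma act_one (p : Fin 5) : act 1 p = p := by
  have h : ∀ q, act 1 (act 1 q) = act 1 q := fun q => by rw [← act_mul, one_mul]
  revert p
  decide +kernel

/-- The cocycle with values in the integers modulo nine (only its class modulo three matters). -/
def c (a : L) (p : Fin 5) : ZMod 9 := (cT a.val p.val : ℕ)

lemma c_mul (a b : L) (p : Fin 5) : 3 * c (a * b) p = 3 * (c a p + c b (act a p)) := by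
  have h := cT_mulT a.val_lt b.val_lt p.2
  have h2 := (ZMod.natCast_eq_natCast_iff' _ _ 9).2 h
  push_cast at h2
  exact h2

end EngelQ
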