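import Mathlib

/-!
# Conditional Engel identities: basic definitions and the elementary abelian kernel lemma
-/

namespace EngelQ

/-- `iterComm x y k = [x, _k y]`, where `[g, y] = g⁻¹ y⁻¹ g y`: `[x, _0 y] = x` and
`[x, _(k+1) y] = [[x, _k y], y]`. -/
def iterComm {G : Type*} [Group G] (x y : G) : ℕ → G
  | 0 => x
  | k + 1 => (iterComm x y k)⁻¹ * y⁻¹ * iterComm x y k * y

/-- The conditional identity (V-r): for all `x, y`, if `[x, _k y] = 1` for some `k`, then
`[x, _r y] = 1`. -/
def VR (r : ℕ) (G : Type*) [Group G] : Prop :=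
  ∀ x y : G, (∃ k : ℕ, iterComm x y k = 1) → iterComm x y r = 1

/-- Iterates of `z ↦ z⁻¹ * S z`. -/
def iterD {B : Type*} [Group B] (S : B → B) (z : B) : ℕ → B
  | 0 => z
  | k + 1 => (iterD S z k)⁻¹ * S (iterD S z k)

section iterD

variable {B B' : Type*} [Group B] [Group B']

@[simp] lemma iterD_zero (S : B → B) (z : B) : iterD S z 0 = z := rfl

lemma iterD_succ (S : B → B) (z : B) (k : ℕ) :
    iterD S z (k + 1) = (iterD S z k)⁻¹ * S (iterD S z k) := rfl

lemma iterD_add (S : B → B) (z : B) (a b : ℕ) :
    iterD S z (a + b) = iterD S (iterD S z a) b := by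
  induction b with
  | zero => rfl
  | succ b ih => rw [← Nat.add_assoc, iterD_succ, ih, iterD_succ]

lemma iterD_map (f : B →* B') (S : B → B) (S' : B' → B') (h : ∀ z, f (S z) = S' (f z)) (z : B)
    (k : ℕ) : f (iterD S z k) = iterD S' (f z) k := by
  induction k with
  | zero => rfl
  | succ k ih => rw [iterD_succ, map_mul, map_inv, h, ih, iterD_succ]

lemma iterD_one_of_le (S : B → B) (hS : S 1 = 1) (z : B) {a b : ℕ} (hab : a ≤ b)
    (h : iterD S z a = 1) : iterD S z b = 1 := by
  induction b, hab using Nat.le_induction with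
  | base => exact h
  | succ n _ ih => rw [iterD_succ, ih, hS, inv_one, one_mul]

/-- If depth exactly `r + 1` never occurs, every finite depth is at most `r`. -/
lemma iterD_bound (S : B → B) (hS : S 1 = 1) (r : ℕ)
    (h : ∀ z, iterD S z (r + 1) = 1 → iterD S z r = 1) (z : B) (k : ℕ)
    (hk : iterD S z k = 1) : iterD S z r = 1 := by
  induction k with
  | zero => exact iterD_one_of_le S hS z (Nat.zero_le _) hk
  | succ k ih =>
    rcases Nat.lt_or_ge k r with hkr | hkr
    · exact iterD_one_of_le S hS z hkr hk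
    · apply ih
      obtain ⟨c, rfl⟩ := Nat.exists_eq_add_of_le hkr
      have h1 : r + c = c + r := by omega
      rw [h1, iterD_add]
      apply h
      rw [← iterD_add]
      have h2 : c + (r + 1) = r + c + 1 := by omega
      rw [h2]
      exact hk

end iterD

section iterComm

variable {G H : Type*} [Group G] [Group H]

lemma iterComm_eq_iterD (x y : G) (k : ℕ) :
    iterComm x y k = iterD (fun z => y⁻¹ * z * y) x k := by
  induction k with
  | zero => rfl
  | succ k ih =>
    rw [iterD_succ, ← ih]
    simp only [iterComm, mul_assoc]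

lemma map_iterComm (f : G →* H) (x y : G) (k : ℕ) :
    f (iterComm x y k) = iterComm (f x) (f y) k := by
  induction k with
  | zero => rfl
  | succ k ih => simp only [iterComm, map_mul, map_inv, ih]

lemma iterComm_add (x y : G) (a b : ℕ) :
    iterComm x y (a + b) = iterComm (iterComm x y a) y b := by
  simp only [iterComm_eq_iterD, iterD_add]

lemma iterComm_one_of_le (x y : G) {a b : ℕ} (hab : a ≤ b) (h : iterComm x y a = 1) :
    iterComm x y b = 1 := by
  rw [iterComm_eq_iterD] at h ⊢
  exact iterD_one_of_le _ (by simp) x hab h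

end iterComm

section ker

/-- In an abelian group of exponent three, the third iterate of `z ↦ z⁻¹ * S z` is
`z ↦ z⁻¹ * S (S (S z))`. -/
lemma cube_D {K : Type*} [CommGroup K] (h3 : ∀ z : K, z ^ 3 = 1) (S : K →* K) (z : K) :
    iterD S z 3 = z⁻¹ * S (S (S z)) := by
  have e1 : iterD S z 1 = z⁻¹ * S z := rfl
  have e2 : iterD S z 2 = (iterD S z 1)⁻¹ * S (iterD S z 1) := rfl
  have e3 : iterD S z 3 = (iterD S z 2)⁻¹ * S (iterD S z 2) := rfl
  rw [e3, e2, e1]
  simp only [map_mul, map_inv]
  have h1 := h3 (S z)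
  have h2 := h3 (S (S z))
  have : (((z⁻¹ * S z)⁻¹ * ((S z)⁻¹ * S (S z)))⁻¹ *
      (((S z)⁻¹ * S (S z))⁻¹ * ((S (S z))⁻¹ * S (S (S z)))))
      = z⁻¹ * S (S (S z)) * ((S z) ^ 3) * ((S (S z)) ^ 3)⁻¹ := by
    simp only [pow_succ, pow_zero, one_mul, mul_inv, inv_inv]
    generalize S z = a
    generalize S a = b
    generalize S b = c
    apply Additive.ofMul.injective
    simp only [ofMul_mul, ofMul_inv]
    abel
  rw [this, h1, h2]
  simp

/-- `S` as an iterated function. -/
lemma iter_fix_of_nine {K : Type*} [CommGroup K] (h3 : ∀ z : K, z ^ 3 = 1) (S : K →* K) (z : K)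
    (h : iterD S z 9 = 1) : S^[9] z = z := by
  have hc := cube_D h3 S
  have h6 : iterD S z 6 = (S.comp (S.comp S)) (iterD S z 3) * (iterD S z 3)⁻¹ := by
    rw [show (6 : ℕ) = 3 + 3 from rfl, iterD_add, hc (iterD S z 3)]
    simp [mul_comm]
  have key : ∀ w : K, iterD S w 3 = iterD (S.comp (S.comp S)) w 1 := by
    intro w
    rw [hc w]; rfl
  have h9 : iterD S z 9 = iterD (S.comp (S.comp S)) z 3 := by
    rw [show (9 : ℕ) = 3 + 3 + 3 from rfl, iterD_add, key, iterD_add, key, key]
    rfl
  rw [h9, cube_D h3] at h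
  have h' : z = (S.comp (S.comp S)) ((S.comp (S.comp S)) ((S.comp (S.comp S)) z)) :=
    (inv_mul_eq_one.mp h)
  conv_rhs => rw [h']
  rfl

/-- The main kernel lemma: in an abelian group of exponent three, if `S` has an iterate `S^[120]`
which is the identity at the relevant points, then a finite depth is at most three, and
`S^[3] z = z`. -/
lemma ker_three {K : Type*} [CommGroup K] (h3 : ∀ z : K, z ^ 3 = 1) (S : K →* K)
    (h120 : ∀ z, S^[120] z = z) (z : K) (k : ℕ) (hk : iterD S z k = 1) :
    S^[3] z = z ∧ iterD S z 3 = 1 := by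
  have main : ∀ w : K, iterD S w 9 = 1 → S^[3] w = w := by
    intro w hw
    have h9 := iter_fix_of_nine h3 S w hw
    have h117 : S^[117] w = w := by
      have : Function.IsFixedPt (S^[9]) w := h9
      have h2 := this.iterate 13
      rw [← Function.iterate_mul] at h2
      exact h2
    have h4 := h120 w
    rw [show (120 : ℕ) = 3 + 117 from rfl, Function.iterate_add_apply, h117] at h4
    exact h4
  have main' : ∀ w : K, iterD S w 9 = 1 → iterD S w 3 = 1 := by
    intro w hw
    rw [cube_D h3]
    have := main w hw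
    rw [inv_mul_eq_one]
    exact this.symm
  have hS1 : (S : K → K) 1 = 1 := map_one S
  have hb : iterD S z 3 = 1 := by
    apply iterD_bound S hS1 3 _ z k hk
    intro w hw
    exact main' w (iterD_one_of_le S hS1 w (by norm_num) hw)
  exact ⟨main z (iterD_one_of_le S hS1 z (by norm_num) hb), hb⟩

/-- The depth of a pair in `G` exceeds the depth of its image in `Q` by at most three, if the
kernel is elementary abelian of exponent three and `Q` has exponent dividing 120. -/
lemma depth_ker {G Q : Type*} [Group G] [Group Q] (f : G →* Q)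
    (hc : ∀ a b : G, f a = 1 → f b = 1 → a * b = b * a) (h3 : ∀ a : G, f a = 1 → a ^ 3 = 1)
    (hQ : ∀ q : Q, q ^ 120 = 1) (x y : G) (d : ℕ) (hd : iterComm (f x) (f y) d = 1) (k : ℕ)
    (hk : iterComm x y k = 1) : iterComm x y (d + 3) = 1 := by
  let K := f.ker
  let _ : CommGroup K := { (inferInstance : Group K) with
    mul_comm := fun a b => Subtype.ext (hc a.1 b.1 a.2 b.2) }
  let S : K →* K := (MulAut.conjNormal (y⁻¹) : MulAut K).toMonoidHom
  have hS : ∀ z : K, ((S z : K) : G) = y⁻¹ * z * y := by
    intro z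
    simp [S]
  have hz : f (iterComm x y d) = 1 := by rw [map_iterComm, hd]
  let z : K := ⟨iterComm x y d, hz⟩
  have hit : ∀ (w : K) (j : ℕ), ((iterD S w j : K) : G) = iterComm (w : G) y j := by
    intro w j
    rw [iterComm_eq_iterD]
    exact iterD_map K.subtype S (fun g => y⁻¹ * g * y) (fun u => hS u) w j
  have hSn : ∀ (n : ℕ) (w : K), ((S^[n] w : K) : G) = (y ^ n)⁻¹ * w * y ^ n := by
    intro n w
    induction n with
    | zero => simp
    | succ n ih =>
      rw [Function.iterate_succ_apply', hS, ih, pow_succ]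
      group
  have h120 : ∀ w : K, S^[120] w = w := by
    intro w
    apply Subtype.ext
    rw [hSn]
    have h1 : f (y ^ 120) = 1 := by rw [map_pow, hQ]
    rw [mul_assoc, hc w (y ^ 120) w.2 h1]
    group
  have hzk : iterD S z (k) = 1 := by
    apply Subtype.ext
    rw [hit]
    change iterComm (iterComm x y d) y k = 1
    rw [← iterComm_add]
    exact iterComm_one_of_le x y (by omega) hk
  have h := (ker_three (fun w => Subtype.ext (h3 w.1 w.2)) S h120 z k hzk).2
  have h' := congrArg (fun w : K => (w : G)) h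
  simp only [hit] at h'
  rw [iterComm_add]
  exact h'

end ker

end EngelQ
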