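import Pool.Agent.Lib.EngelQ.A5

/-!
# Twisted shifts and their commutator trees over the group `L`
-/

namespace EngelQ

section generic

variable {A A' : Type*} [Group A] [Group A']

/-- The twisted shift on four coordinates. -/
def sg4 (π : A) : A × A × A × A →* A × A × A × A where
  toFun l := (l.2.1, l.2.2.1, l.2.2.2, π⁻¹ * l.1 * π)
  map_one' := by ext <;> simp
  map_mul' x y := by ext <;> simp [mul_assoc]

/-- The twisted shift on two coordinates. -/
def sg2 (π : A) : A × A →* A × A where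
  toFun l := (l.2, π⁻¹ * l.1 * π)
  map_one' := by ext <;> simp
  map_mul' x y := by ext <;> simp [mul_assoc]

/-- Conjugation. -/
def sg1 (π : A) : A →* A where
  toFun a := π⁻¹ * a * π
  map_one' := by simp
  map_mul' x y := by simp [mul_assoc]

lemma sg4_apply (π : A) (l : A × A × A × A) :
    sg4 π l = (l.2.1, l.2.2.1, l.2.2.2, π⁻¹ * l.1 * π) := rfl
lemma sg2_apply (π : A) (l : A × A) : sg2 π l = (l.2, π⁻¹ * l.1 * π) := rfl
lemma sg1_apply (π : A) (a : A) : sg1 π a = π⁻¹ * a * π := rfl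

/-- The possible predecessor of `s` with first coordinate `x`. -/
def nxt (x : A) (s : A × A × A × A) : A × A × A × A :=
  (x, x * s.1, x * s.1 * s.2.1, x * s.1 * s.2.1 * s.2.2.1)

/-- The product of the coordinates. -/
def pr (s : A × A × A × A) : A := s.1 * s.2.1 * s.2.2.1 * s.2.2.2

lemma pred4 (π : A) (l s : A × A × A × A) (h : l⁻¹ * sg4 π l = s) :
    l = nxt l.1 s ∧ l.1 * pr s = π⁻¹ * l.1 * π := by
  obtain ⟨l0, l1, l2, l3⟩ := l
  obtain ⟨s0, s1, s2, s3⟩ := s
  simp only [sg4_apply, Prod.inv_mk, Prod.mk_mul_mk, Prod.mk.injEq] at h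
  obtain ⟨h0, h1, h2, h3⟩ := h
  have e1 : l1 = l0 * s0 := by rw [← h0]; group
  have e2 : l2 = l1 * s1 := by rw [← h1]; group
  have e3 : l3 = l2 * s2 := by rw [← h2]; group
  have e4 : π⁻¹ * l0 * π = l3 * s3 := by rw [← h3]; group
  refine ⟨?_, ?_⟩
  · simp only [nxt, Prod.mk.injEq, true_and]
    rw [e3, e2, e1]
    exact ⟨rfl, rfl, rfl⟩
  · simp only [pr]
    rw [e4, e3, e2, e1]
    group

lemma pred2 (π : A) (l s : A × A) (h : l⁻¹ * sg2 π l = s) :
    l = (l.1, l.1 * s.1) ∧ l.1 * (s.1 * s.2) = π⁻¹ * l.1 * π := by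
  obtain ⟨l0, l1⟩ := l
  obtain ⟨s0, s1⟩ := s
  simp only [sg2_apply, Prod.inv_mk, Prod.mk_mul_mk, Prod.mk.injEq] at h
  obtain ⟨h0, h1⟩ := h
  have e1 : l1 = l0 * s0 := by rw [← h0]; group
  have e4 : π⁻¹ * l0 * π = l1 * s1 := by rw [← h1]; group
  refine ⟨?_, ?_⟩
  · simp only [Prod.mk.injEq, true_and]
    exact e1
  · simp only
    rw [e4, e1]
    group

/-- Componentwise conjugation by the same element. -/
def cj4 (x : A) : A × A × A × A →* A × A × A × A where
  toFun l := (x⁻¹ * l.1 * x, x⁻¹ * l.2.1 * x, x⁻¹ * l.2.2.1 * x, x⁻¹ * l.2.2.2 * x)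
  map_one' := by ext <;> simp
  map_mul' x y := by ext <;> simp [mul_assoc]

lemma cj4_sg4 (x π : A) (l : A × A × A × A) :
    cj4 x (sg4 π l) = sg4 (x⁻¹ * π * x) (cj4 x l) := by
  simp only [cj4, sg4, MonoidHom.coe_mk, OneHom.coe_mk, Prod.mk.injEq, true_and]
  group

lemma cj4_eq_one (x : A) (l : A × A × A × A) : cj4 x l = 1 ↔ l = 1 := by
  obtain ⟨l0, l1, l2, l3⟩ := l
  simp only [cj4, MonoidHom.coe_mk, OneHom.coe_mk, Prod.mk_eq_one]
  have : ∀ a : A, x⁻¹ * a * x = 1 ↔ a = 1 := by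
    intro a
    constructor
    · intro h
      have : a = x * (x⁻¹ * a * x) * x⁻¹ := by group
      rw [this, h]; group
    · rintro rfl; group
  simp only [this]

lemma iterD_cj4 (x π : A) (l : A × A × A × A) (k : ℕ) :
    iterD (sg4 (x⁻¹ * π * x)) (cj4 x l) k = 1 ↔ iterD (sg4 π) l k = 1 := by
  rw [← iterD_map (cj4 x) (sg4 π) (sg4 (x⁻¹ * π * x)) (cj4_sg4 x π) l k, cj4_eq_one]

end generic

/-- The closure test for a predecessor. -/
def cl (π S h : ℕ) : Bool := Nat.beq (mulT π (mulT h S)) (mulT h π)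

/-- All chains of predecessors of `(s0, s1, s2, s3)` have length at most `k`. -/
def dies4 (π : ℕ) : ℕ → ℕ → ℕ → ℕ → ℕ → Bool
  | 0, s0, s1, s2, s3 => force (mulT (mulT (mulT s0 s1) s2) s3) fun S =>
      allLt (fun h => !(cl π S h)) 60
  | k + 1, s0, s1, s2, s3 => force (mulT (mulT (mulT s0 s1) s2) s3) fun S =>
      allLt (fun h => !(cl π S h) || force (mulT h s0) fun l1 => force (mulT l1 s1) fun l2 =>
        force (mulT l2 s2) fun l3 => dies4 π k h l1 l2 l3) 60

/-- All chains of predecessors of `(s0, s1)` have length at most `k`. -/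
def dies2 (π : ℕ) : ℕ → ℕ → ℕ → Bool
  | 0, s0, s1 => force (mulT s0 s1) fun S => allLt (fun h => !(cl π S h)) 60
  | k + 1, s0, s1 => force (mulT s0 s1) fun S =>
      allLt (fun h => !(cl π S h) || force (mulT h s0) fun l1 => dies2 π k h l1) 60

lemma cl_of {π S h : L} (H : h * S = π⁻¹ * h * π) : cl π.val S.val h.val = true := by
  have : π * (h * S) = h * π := by rw [H]; group
  have h2 := congrArg L.val this
  simp only [L.val_mul] at h2
  unfold cl
  rw [h2]
  exact Nat.beq_refl _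

lemma dies4_sound (π : L) (k : ℕ) : ∀ s : L × L × L × L,
    dies4 π.val k s.1.val s.2.1.val s.2.2.1.val s.2.2.2.val = true →
    ∀ l, iterD (sg4 π) l (k + 1) ≠ s := by
  induction k with
  | zero =>
    intro s hs l hl
    have hl' : l⁻¹ * sg4 π l = s := hl
    obtain ⟨h1, h2⟩ := pred4 π l s hl'
    simp only [dies4, force_eq] at hs
    rw [allLt_iff] at hs
    have h3 := hs l.1.val l.1.val_lt
    have h4 := cl_of (S := pr s) h2
    simp only [pr, L.val_mul] at h4
    rw [h4] at h3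
    simp at h3
  | succ k ih =>
    intro s hs l hl
    rw [iterD_succ] at hl
    set l' := iterD (sg4 π) l (k + 1) with hl'
    obtain ⟨h1, h2⟩ := pred4 π l' s hl
    simp only [dies4, force_eq] at hs
    rw [allLt_iff] at hs
    have h3 := hs l'.1.val l'.1.val_lt
    have h4 := cl_of (S := pr s) h2
    simp only [pr, L.val_mul] at h4
    rw [h4] at h3
    simp only [Bool.not_true, Bool.false_or] at h3
    refine ih (nxt l'.1 s) ?_ l ?_
    · simp only [nxt, L.val_mul]
      exact h3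
    · rw [← hl']; exact h1

lemma dies2_sound (π : L) (k : ℕ) : ∀ s : L × L,
    dies2 π.val k s.1.val s.2.val = true → ∀ l, iterD (sg2 π) l (k + 1) ≠ s := by
  induction k with
  | zero =>
    intro s hs l hl
    have hl' : l⁻¹ * sg2 π l = s := hl
    obtain ⟨h1, h2⟩ := pred2 π l s hl'
    simp only [dies2, force_eq] at hs
    rw [allLt_iff] at hs
    have h3 := hs l.1.val l.1.val_lt
    have h4 := cl_of h2
    simp only [L.val_mul] at h4
    rw [h4] at h3
    simp at h3
  | succ k ih =>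
    intro s hs l hl
    rw [iterD_succ] at hl
    set l' := iterD (sg2 π) l (k + 1) with hl'
    obtain ⟨h1, h2⟩ := pred2 π l' s hl
    simp only [dies2, force_eq] at hs
    rw [allLt_iff] at hs
    have h3 := hs l'.1.val l'.1.val_lt
    have h4 := cl_of h2
    simp only [L.val_mul] at h4
    rw [h4] at h3
    simp only [Bool.not_true, Bool.false_or] at h3
    refine ih (l'.1, l'.1 * s.1) ?_ l ?_
    · simp only [L.val_mul]
      exact h3
    · rw [← hl']; exact h1

/-- The tree check for the twist `π` on four coordinates. -/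
def chk4 (π k : ℕ) : Bool :=
  allLt (fun h => Nat.beq h 0 || (!(cl π 0 h) || dies4 π k h h h h)) 60

/-- The tree check for the twist `π` on two coordinates. -/
def chk2 (π k : ℕ) : Bool :=
  allLt (fun h => Nat.beq h 0 || (!(cl π 0 h) || dies2 π k h h)) 60

lemma chk4_sound (π : L) (k : ℕ) (h : chk4 π.val k = true) (l : L × L × L × L)
    (hl : iterD (sg4 π) l (k + 2) = 1) : iterD (sg4 π) l (k + 1) = 1 := by
  by_contra hne
  set s := iterD (sg4 π) l (k + 1) with hs
  have h1 : s⁻¹ * sg4 π s = 1 := by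
    rw [hs, ← iterD_succ]; exact hl
  obtain ⟨h2, h3⟩ := pred4 π s 1 h1
  have h4 : s = (s.1, s.1, s.1, s.1) := by
    conv_lhs => rw [h2]
    simp [nxt]
  have h5 : s.1 ≠ 1 := by
    intro h5
    apply hne
    rw [h4, h5]; rfl
  have hpr : pr (1 : L × L × L × L) = 1 := by simp [pr]
  rw [hpr] at h3
  have h6 := cl_of h3
  unfold chk4 at h
  rw [allLt_iff] at h
  have h7 := h s.1.val s.1.val_lt
  rw [L.val_one] at h6
  rw [h6] at h7
  have h8 : Nat.beq s.1.val 0 = false := by
    rw [Bool.eq_false_iff]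
    intro h8
    exact h5 (L.ext (Nat.eq_of_beq_eq_true h8))
  rw [h8] at h7
  simp only [Bool.not_true, Bool.false_or] at h7
  refine dies4_sound π k (s.1, s.1, s.1, s.1) h7 l ?_
  rw [← h4]

lemma chk2_sound (π : L) (k : ℕ) (h : chk2 π.val k = true) (l : L × L)
    (hl : iterD (sg2 π) l (k + 2) = 1) : iterD (sg2 π) l (k + 1) = 1 := by
  by_contra hne
  set s := iterD (sg2 π) l (k + 1) with hs
  have h1 : s⁻¹ * sg2 π s = 1 := by
    rw [hs, ← iterD_succ]; exact hl
  obtain ⟨h2, h3⟩ := pred2 π s 1 h1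
  have h4 : s = (s.1, s.1) := by
    conv_lhs => rw [h2]
    simp
  have h5 : s.1 ≠ 1 := by
    intro h5
    apply hne
    rw [h4, h5]; rfl
  have hpr : (1 : L × L).1 * (1 : L × L).2 = 1 := by simp
  rw [hpr] at h3
  have h6 := cl_of h3
  unfold chk2 at h
  rw [allLt_iff] at h
  have h7 := h s.1.val s.1.val_lt
  rw [L.val_one] at h6
  rw [h6] at h7
  have h8 : Nat.beq s.1.val 0 = false := by
    rw [Bool.eq_false_iff]
    intro h8
    exact h5 (L.ext (Nat.eq_of_beq_eq_true h8))
  rw [h8] at h7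
  simp only [Bool.not_true, Bool.false_or] at h7
  refine dies2_sound π k (s.1, s.1) h7 l ?_
  rw [← h4]

end EngelQ
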