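import Pool.Agent.Lib.EngelQ.EExt
import Pool.Agent.Lib.EngelQ.Tree

/-!
# Linear certificates for the non-existence of lifts to `E`
-/

namespace EngelQ

section words

variable {A : Type*} [Group A]

/-- The words of a predecessor. -/
def nxtW (b : ℕ) (s : List ℕ × List ℕ × List ℕ × List ℕ) :
    List ℕ × List ℕ × List ℕ × List ℕ :=
  ([b], b :: s.1, b :: (s.1 ++ s.2.1), b :: (s.1 ++ (s.2.1 ++ s.2.2.1)))

/-- The word of the product. -/
def prW (s : List ℕ × List ℕ × List ℕ × List ℕ) : List ℕ :=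
  s.1 ++ (s.2.1 ++ (s.2.2.1 ++ s.2.2.2))

/-- Evaluation of a word. -/
def evW (X : ℕ → A) (w : List ℕ) : A := (w.map X).prod

lemma evW_append (X : ℕ → A) (w w' : List ℕ) : evW X (w ++ w') = evW X w * evW X w' := by
  simp [evW]

lemma evW_cons (X : ℕ → A) (b : ℕ) (w : List ℕ) : evW X (b :: w) = X b * evW X w := by
  simp [evW]

lemma evW_nil (X : ℕ → A) : evW X [] = 1 := by simp [evW]

/-- Evaluation of four words. -/
def evW4 (X : ℕ → A) (s : List ℕ × List ℕ × List ℕ × List ℕ) : A × A × A × A :=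
  (evW X s.1, evW X s.2.1, evW X s.2.2.1, evW X s.2.2.2)

lemma evW4_nxtW (X : ℕ → A) (b : ℕ) (s : List ℕ × List ℕ × List ℕ × List ℕ) :
    evW4 X (nxtW b s) = nxt (X b) (evW4 X s) := by
  simp only [evW4, nxtW, nxt, evW_cons, evW_append, evW_nil, mul_one, mul_assoc]

lemma evW_prW (X : ℕ → A) (s : List ℕ × List ℕ × List ℕ × List ℕ) :
    evW X (prW s) = pr (evW4 X s) := by
  simp only [evW4, prW, pr, evW_append, mul_assoc]

end words

/-- The words at level zero. -/
def W0 : List ℕ × List ℕ × List ℕ × List ℕ := ([0], [0], [0], [0])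
/-- The words at level one. -/
def W1 : List ℕ × List ℕ × List ℕ × List ℕ := nxtW 1 W0
/-- The words at level two. -/
def W2 : List ℕ × List ℕ × List ℕ × List ℕ := nxtW 2 W1
/-- The words at level three. -/
def W3 : List ℕ × List ℕ × List ℕ × List ℕ := nxtW 3 W2
/-- The words at level four. -/
def W4 : List ℕ × List ℕ × List ℕ × List ℕ := nxtW 4 W3

/-- The product words. -/
def PW : ℕ → List ℕ
  | 0 => prW W0
  | 1 => prW W1
  | 2 => prW W2
  | 3 => prW W3
  | _ => prW W4

/-- The sum of the values `F` along a word. -/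
def wsum (bar : ℕ → L) (F : ℕ → Fin 5 → ZMod 9) : List ℕ → Fin 5 → ZMod 9
  | [], _ => 0
  | b :: w, p => F b p + wsum bar F w (act (bar b) p)

lemma f_evW (X : ℕ → E) (w : List ℕ) : ∀ p : Fin 5,
    (evW X w).f p = wsum (fun b => (X b).g) (fun b => (X b).f) w p := by
  induction w with
  | nil => intro p; simp [evW_nil, wsum]
  | cons b w ih =>
    intro p
    rw [evW_cons, E.f_mul, ih, wsum]

/-- `forceA x f = f x`, but the kernel evaluates `x` first. -/
def forceA {α : Type} (x : ℕ) (f : ℕ → α) : α :=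
  match x with
  | 0 => f 0
  | n + 1 => f (Nat.succ n)

@[simp] lemma forceA_eq {α : Type} (x : ℕ) (f : ℕ → α) : forceA x f = f x := by
  cases x <;> rfl

/-- Add `lam` at position `i` of a list. -/
def inc (lam : ℕ) : ℕ → List ℕ → List ℕ
  | _, [] => []
  | 0, r :: rs => (r + lam) :: rs
  | i + 1, r :: rs => r :: inc lam i rs

/-- Evaluation of a row. -/
def ev (x : ℕ → ZMod 9) : ℕ → List ℕ → ZMod 9
  | _, [] => 0
  | o, r :: rs => (r : ZMod 9) * x o + ev x (o + 1) rs

lemma length_inc (lam : ℕ) : ∀ (i : ℕ) (row : List ℕ), (inc lam i row).length = row.length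
  | i, [] => by simp [inc]
  | 0, _ :: _ => by simp [inc]
  | i + 1, r :: rs => by simp [inc, length_inc lam i rs]

lemma ev_inc (x : ℕ → ZMod 9) (lam : ℕ) : ∀ (i : ℕ) (row : List ℕ) (o : ℕ), i < row.length →
    ev x o (inc lam i row) = ev x o row + lam * x (o + i)
  | _, [], _, h => by simp at h
  | 0, r :: rs, o, _ => by
    simp only [inc, ev, Nat.cast_add, add_zero]
    ring
  | i + 1, r :: rs, o, h => by
    have h' : i < rs.length := by simpa using h
    simp only [inc, ev]
    rw [ev_inc x lam i rs (o + 1) h']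
    have : o + 1 + i = o + (i + 1) := by ring
    rw [this]
    ring

/-- The row of a walk. -/
def walk (bar : ℕ → ℕ) (lam : ℕ) : List ℕ → ℕ → List ℕ → List ℕ
  | [], _, row => row
  | b :: w, p, row => forceA (actT (bar b) p) fun q => walk bar lam w q (inc lam (5 * b + p) row)

lemma length_walk (bar : ℕ → ℕ) (lam : ℕ) (w : List ℕ) : ∀ (p : ℕ) (row : List ℕ),
    (walk bar lam w p row).length = row.length := by
  induction w with
  | nil => intro p row; rfl
  | cons b w ih =>
    intro p row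
    simp only [walk, forceA_eq]
    rw [ih, length_inc]

lemma ev_walk (bar : ℕ → L) (F : ℕ → Fin 5 → ZMod 9) (x : ℕ → ZMod 9)
    (hx : ∀ b (p : Fin 5), x (5 * b + p.val) = F b p) (lam : ℕ) (w : List ℕ) :
    ∀ (p : Fin 5) (row : List ℕ), (∀ b ∈ w, b < 6) → row.length = 30 →
      ev x 0 (walk (fun b => (bar b).val) lam w p.val row)
        = ev x 0 row + lam * wsum bar F w p := by
  induction w with
  | nil => intro p row _ _; simp [walk, wsum]
  | cons b w ih =>
    intro p row hb hrow
    simp only [walk, forceA_eq]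
    rw [← act_val, ih _ _ (fun b' hb' => hb b' (List.mem_cons_of_mem _ hb'))
      (by rw [length_inc, hrow])]
    have hb6 := hb b (List.mem_cons_self ..)
    have hp := p.2
    rw [ev_inc _ _ _ _ _ (by rw [hrow]; omega), wsum, zero_add, hx]
    ring

/-- The contribution of an equation to a row. -/
def addEq (bar : ℕ → ℕ) (e : ℕ × ℕ × ℕ) (row : List ℕ) : List ℕ :=
  forceA (actT (if Nat.ble e.1 3 then bar (e.1 + 1) else 0) e.2.1) fun q =>
    inc (2 * e.2.2) (25 + q) (inc e.2.2 (25 + e.2.1) (walk bar e.2.2 (PW e.1) q row))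

/-- The row of a certificate. -/
def certRow (bar : ℕ → ℕ) (cs : List (ℕ × ℕ × ℕ)) : List ℕ :=
  cs.foldr (addEq bar) (List.replicate 30 0)

/-- The entries of the certificate are in the range. -/
def entOK (J : ℕ) (cs : List (ℕ × ℕ × ℕ)) : Bool :=
  cs.all fun e => Nat.ble e.1 J && Nat.ble e.2.1 4

lemma PW_lt (j : ℕ) : ∀ b ∈ PW j, b < 6 := by
  have h : ∀ j < 5, ∀ b ∈ PW j, b < 6 := by decide +kernel
  rcases Nat.lt_or_ge j 5 with hj | hj
  · exact h j hj
  · have : PW j = PW 4 := by
      obtain ⟨i, rfl⟩ := Nat.exists_eq_add_of_le hj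
      rw [Nat.add_comm]
      rfl
    rw [this]
    exact h 4 (by norm_num)

lemma length_addEq (bar : ℕ → ℕ) (e : ℕ × ℕ × ℕ) (row : List ℕ) :
    (addEq bar e row).length = row.length := by
  simp only [addEq, forceA_eq]
  rw [length_inc, length_inc, length_walk]

lemma length_certRow (bar : ℕ → ℕ) (cs : List (ℕ × ℕ × ℕ)) : (certRow bar cs).length = 30 := by
  induction cs with
  | nil => rfl
  | cons e cs ih => rw [certRow, List.foldr_cons, length_addEq]; exact ih

lemma ev_replicate (x : ℕ → ZMod 9) (n : ℕ) : ∀ o, ev x o (List.replicate n 0) = 0 := by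
  induction n with
  | zero => intro o; rfl
  | succ n ih => intro o; rw [List.replicate_succ, ev, ih]; simp

/-- The group element shifting the equation number `j`. -/
def eqX (bar : ℕ → L) (j : ℕ) : L := if Nat.ble j 3 then bar (j + 1) else 1

/-- The equation number `(j, p)`. -/
def EqHolds (bar : ℕ → L) (F : ℕ → Fin 5 → ZMod 9) (j : ℕ) (p : Fin 5) : Prop :=
  wsum bar F (PW j) (act (eqX bar j) p) + F 5 p + 2 * F 5 (act (eqX bar j) p) = 0

lemma ev_certRow (bar : ℕ → L) (F : ℕ → Fin 5 → ZMod 9) (x : ℕ → ZMod 9)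
    (hx : ∀ b (p : Fin 5), x (5 * b + p.val) = F b p) (J : ℕ)
    (hE : ∀ j ≤ J, ∀ p, EqHolds bar F j p) (cs : List (ℕ × ℕ × ℕ)) (hcs : entOK J cs = true) :
    ev x 0 (certRow (fun b => (bar b).val) cs) = 0 := by
  induction cs with
  | nil => exact ev_replicate x 30 0
  | cons e cs ih =>
    simp only [entOK, List.all_cons, Bool.and_eq_true] at hcs
    obtain ⟨⟨h1, h2⟩, h3⟩ := hcs
    have hj : e.1 ≤ J := Nat.le_of_ble_eq_true h1
    have hp : e.2.1 < 5 := Nat.lt_succ_of_le (Nat.le_of_ble_eq_true h2)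
    have ih' := ih h3
    have hlen := length_certRow (fun b => (bar b).val) cs
    have hX : (if Nat.ble e.1 3 then ((fun b => (bar b).val) (e.1 + 1)) else 0)
        = (eqX bar e.1).val := by
      unfold eqX
      split_ifs <;> rfl
    have hact : actT (eqX bar e.1).val e.2.1 = (act (eqX bar e.1) ⟨e.2.1, hp⟩).val := rfl
    have hq := (act (eqX bar e.1) ⟨e.2.1, hp⟩).2
    have hq0 : certRow (fun b => (bar b).val) (e :: cs)
        = addEq (fun b => (bar b).val) e (certRow (fun b => (bar b).val) cs) := rfl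
    rw [hq0]
    simp only [addEq, forceA_eq]
    rw [hX, hact, ev_inc _ _ _ _ _ (by rw [length_inc, length_walk, hlen]; omega),
      ev_inc _ _ _ _ _ (by rw [length_walk, hlen]; omega),
      ev_walk bar F x hx _ _ _ _ (PW_lt _) hlen, ih']
    have hEq := hE e.1 hj ⟨e.2.1, hp⟩
    unfold EqHolds at hEq
    have e1 : x (0 + (25 + e.2.1)) = F 5 ⟨e.2.1, hp⟩ := by
      rw [← hx]; congr 1; simp
    have e2 : x (0 + (25 + (act (eqX bar e.1) ⟨e.2.1, hp⟩).val))
        = F 5 (act (eqX bar e.1) ⟨e.2.1, hp⟩) := by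
      rw [← hx]; congr 1; simp
    rw [e1, e2]
    push_cast
    linear_combination (e.2.2 : ZMod 9) * hEq

/-- The residues modulo three of a row agree with the target. -/
def modOK : List ℕ → List ℕ → Bool
  | [], [] => true
  | r :: rs, t :: ts => Nat.beq (r % 3) t && modOK rs ts
  | _, _ => false

/-- The constant of a row. -/
def csum (cv : ℕ → ℕ) : ℕ → List ℕ → ℕ
  | _, [] => 0
  | o, r :: rs => (r / 3) * cv o + csum cv (o + 1) rs

lemma ev_mod (x : ℕ → ZMod 9) (cv : ℕ → ℕ) :
    ∀ (row tau : List ℕ) (o : ℕ), (∀ i, o ≤ i → i < o + row.length → 3 * x i = 3 * (cv i : ℕ)) →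
      modOK row tau = true → ev x o row = ev x o tau + 3 * (csum cv o row : ℕ)
  | [], [], o, _, _ => by simp [ev, csum]
  | r :: rs, t :: ts, o, hx, h => by
    simp only [modOK, Bool.and_eq_true] at h
    have h1 : r % 3 = t := Nat.eq_of_beq_eq_true h.1
    have ih := ev_mod x cv rs ts (o + 1) (fun i h1 h2 => hx i (by omega)
      (by simp only [List.length_cons]; omega)) h.2
    have hr : (r : ZMod 9) = 3 * ((r / 3 : ℕ) : ZMod 9) + (t : ZMod 9) := by
      rw [← h1]
      exact_mod_cast congrArg (Nat.cast : ℕ → ZMod 9) (Nat.div_add_mod r 3).symm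
    have hxo := hx o le_rfl (by simp)
    simp only [ev, csum]
    rw [ih, hr]
    push_cast
    linear_combination ((r / 3 : ℕ) : ZMod 9) * hxo
  | [], _ :: _, _, _, h => by simp [modOK] at h
  | _ :: _, [], _, _, h => by simp [modOK] at h

/-- The table of constants. -/
def cvT (bar : ℕ → ℕ) (i : ℕ) : ℕ := cT (bar (i / 5)) (i % 5)

/-- The target row `v p + 2 v 0`. -/
def tgt (p : ℕ) : List ℕ := inc 1 (25 + p) (inc 2 25 (List.replicate 30 0))

/-- Check of a certificate for `v p = v 0`. -/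
def chkV (bar : ℕ → ℕ) (p : ℕ) (cs : List (ℕ × ℕ × ℕ)) : Bool :=
  entOK 3 cs && (modOK (certRow bar cs) (tgt p) &&
    Nat.beq (csum (cvT bar) 0 (certRow bar cs) % 3) 0)

/-- Check of the final certificate. -/
def chkF (bar : ℕ → ℕ) (cs : List (ℕ × ℕ × ℕ)) : Bool :=
  entOK 4 cs && (modOK (certRow bar cs) (List.replicate 30 0) &&
    !(Nat.beq (csum (cvT bar) 0 (certRow bar cs) % 3) 0))

end EngelQ
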