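import Pool.Agent.Lib.EngelQ.Tree

/-!
# The kernel checks for the commutator trees over `L`
-/

namespace EngelQ

set_option maxRecDepth 100000

theorem chk4_all : (chk4 1 4 && (chk4 2 4 && (chk4 4 4 && chk4 9 4))) = true := by
  decide +kernel

theorem chk2_all : allLt (fun π => chk2 π 2) 60 = true := by
  decide +kernel

/-- Every element of `L` other than `1` is conjugate to one of the elements `1, 2, 4, 9`. -/
theorem chk_reps : allLt (fun a => Nat.beq a 0 || !(allLt (fun x =>
    !(force (mulT (invT x) (mulT a x)) fun b =>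
      Nat.beq b 1 || (Nat.beq b 2 || (Nat.beq b 4 || Nat.beq b 9)))) 60)) 60 = true := by
  decide +kernel

/-- `z⁻¹ π⁻¹ z π` on numbers. -/
def dT (π z : ℕ) : ℕ := mulT (mulT (invT z) (invT π)) (mulT z π)

theorem chk1_all : allLt (fun π => allLt (fun z => force (dT π z) fun z1 =>
    force (dT π z1) fun z2 => Nat.beq z2 0 || !(Nat.beq (dT π z2) 0)) 60) 60 = true := by
  decide +kernel

end EngelQ
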