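import Pool.Agent.Lib.EngelQ.Sys
import Pool.Agent.Lib.EngelQ.TreeChk

/-!
# Depth bounds for the twisted shifts
-/

namespace EngelQ

/-- Over the kernel of `E → L`, a point of finite depth is fixed by the shift. -/
lemma fixed_of_ker {v : E} (hv : v.g = 1) (z : E × E × E × E) (hz : map4 E.bar z = 1) (k : ℕ)
    (hk : iterD (sg4 v) z k = 1) : sg4 v z = z := by
  let K := (map4 E.bar : E × E × E × E →* L × L × L × L).ker
  have hmem : ∀ w : K, w.1.1.g = 1 ∧ w.1.2.1.g = 1 ∧ w.1.2.2.1.g = 1 ∧ w.1.2.2.2.g = 1 := by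
    intro w
    have := w.2
    rw [MonoidHom.mem_ker, map4_apply] at this
    simpa [Prod.ext_iff] using this
  let _ : CommGroup K := { (inferInstance : Group K) with
    mul_comm := fun a b => Subtype.ext (by
      obtain ⟨a1, a2, a3, a4⟩ := hmem a
      obtain ⟨b1, b2, b3, b4⟩ := hmem b
      exact Prod.ext (E.comm_of_bar a1 b1) (Prod.ext (E.comm_of_bar a2 b2)
        (Prod.ext (E.comm_of_bar a3 b3) (E.comm_of_bar a4 b4)))) }
  have hS : ∀ w : K, (sg4 v).comp K.subtype w ∈ K := by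
    intro w
    have hw := w.2
    rw [MonoidHom.mem_ker] at hw ⊢
    change map4 E.bar (sg4 v w.1) = 1
    rw [map4_sg4, hw, map_one]
  let S : K →* K := ((sg4 v).comp K.subtype).codRestrict K hS
  have hSc : ∀ w : K, ((S w : K) : E × E × E × E) = sg4 v w.1 := fun w => rfl
  have h4 : ∀ w : K, S^[4] w = w := by
    intro w
    apply Subtype.ext
    obtain ⟨a1, a2, a3, a4⟩ := hmem w
    have hcj : ∀ a : E, a.g = 1 → v⁻¹ * a * v = a := by
      intro a ha
      rw [mul_assoc, E.comm_of_bar ha hv, inv_mul_cancel_left]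
    change sg4 v (sg4 v (sg4 v (sg4 v w.1))) = w.1
    simp only [sg4_apply]
    rw [hcj _ a1, hcj _ a2, hcj _ a3, hcj _ a4]
  have h120 : ∀ w : K, S^[120] w = w := by
    intro w
    have : Function.IsFixedPt (S^[4]) w := h4 w
    have h2 := this.iterate 30
    rw [← Function.iterate_mul] at h2
    exact h2
  have h3 : ∀ w : K, w ^ 3 = 1 := by
    intro w
    apply Subtype.ext
    obtain ⟨a1, a2, a3, a4⟩ := hmem w
    change w.1 ^ 3 = 1
    exact Prod.ext (E.cube_of_bar a1) (Prod.ext (E.cube_of_bar a2)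
      (Prod.ext (E.cube_of_bar a3) (E.cube_of_bar a4)))
  let z' : K := ⟨z, hz⟩
  have hit : ∀ j, ((iterD S z' j : K) : E × E × E × E) = iterD (sg4 v) z j := fun j =>
    iterD_map K.subtype S (sg4 v) (fun w => rfl) z' j
  have hk' : iterD S z' k = 1 := Subtype.ext (by rw [hit]; exact hk)
  have h5 := (ker_three h3 S h120 z' k hk').1
  have h6 : S z' = z' := by
    have h7 : S (S^[3] z') = z' := h4 z'
    rw [h5] at h7
    exact h7
  exact congrArg Subtype.val h6

/-- Over `E`, with a twist in the kernel, every finite depth is at most four in the quotient. -/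
theorem lift_depth {v : E} (hv : v.g = 1) (l : E × E × E × E) (k : ℕ)
    (hk : iterD (sg4 v) l k = 1) : iterD (sg4 (1 : L)) (map4 E.bar l) 4 = 1 := by
  have hmap : ∀ (w : E × E × E × E) (j : ℕ),
      map4 E.bar (iterD (sg4 v) w j) = iterD (sg4 (1 : L)) (map4 E.bar w) j := by
    intro w j
    apply iterD_map (map4 E.bar) (sg4 v) (sg4 (1 : L))
    intro z
    rw [map4_sg4, E.bar_apply, hv]
  have hex : ∃ j, iterD (sg4 (1 : L)) (map4 E.bar l) j = 1 := ⟨k, by rw [← hmap, hk, map_one]⟩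
  classical
  set d := Nat.find hex with hd
  have hd1 : iterD (sg4 (1 : L)) (map4 E.bar l) d = 1 := Nat.find_spec hex
  rcases Nat.lt_or_ge d 5 with h5 | h5
  · exact iterD_one_of_le _ (map_one _) _ (by omega) hd1
  exfalso
  obtain ⟨e, he⟩ := Nat.exists_eq_add_of_le h5
  have hmin : iterD (sg4 (1 : L)) (map4 E.bar l) (e + 4) ≠ 1 :=
    Nat.find_min hex (by omega)
  set l5 := iterD (sg4 v) l e with hl5
  have st : ∀ j, iterD (sg4 v) l5 (j + 1)
      = (iterD (sg4 v) l5 j)⁻¹ * sg4 v (iterD (sg4 v) l5 j) := fun j => rfl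
  obtain ⟨a4, b4⟩ := pred4 v (iterD (sg4 v) l5 0) (iterD (sg4 v) l5 1) (st 0).symm
  obtain ⟨a3, b3⟩ := pred4 v (iterD (sg4 v) l5 1) (iterD (sg4 v) l5 2) (st 1).symm
  obtain ⟨a2, b2⟩ := pred4 v (iterD (sg4 v) l5 2) (iterD (sg4 v) l5 3) (st 2).symm
  obtain ⟨a1, b1⟩ := pred4 v (iterD (sg4 v) l5 3) (iterD (sg4 v) l5 4) (st 3).symm
  obtain ⟨a0, b0⟩ := pred4 v (iterD (sg4 v) l5 4) (iterD (sg4 v) l5 5) (st 4).symm
  have hz : map4 E.bar (iterD (sg4 v) l5 5) = 1 := by
    rw [hl5, ← iterD_add, hmap, show e + 5 = d by omega]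
    exact hd1
  have hk0 : iterD (sg4 v) (iterD (sg4 v) l5 5) k = 1 := by
    rw [hl5, ← iterD_add, ← iterD_add]
    exact iterD_one_of_le _ (map_one _) _ (by omega) hk
  have hfix := fixed_of_ker hv _ hz k hk0
  obtain ⟨u, hu, hl0⟩ : ∃ u : E, u.g = 1 ∧ iterD (sg4 v) l5 5 = (u, u, u, u) := by
    revert hfix hz
    generalize iterD (sg4 v) l5 5 = z
    rintro hz hfix
    obtain ⟨z0, z1, z2, z3⟩ := z
    simp only [sg4_apply, Prod.mk.injEq] at hfix
    obtain ⟨f0, f1, f2, f3⟩ := hfix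
    refine ⟨z0, ?_, ?_⟩
    · have := congrArg Prod.fst hz
      exact this
    · subst f2
      subst f1
      subst f0
      rfl
  rw [hl0] at a0 b0
  rw [a0] at a1 b1
  rw [a1] at a2 b2
  rw [a2] at a3 b3
  rw [a3] at a4 b4
  have S : Sys v u (iterD (sg4 v) l5 4).1 (iterD (sg4 v) l5 3).1 (iterD (sg4 v) l5 2).1
      (iterD (sg4 v) l5 1).1 (iterD (sg4 v) l5 0).1 := ⟨b0, b1, b2, b3, b4⟩
  have hh := noSys hv hu S
  apply hmin
  have h6 : iterD (sg4 (1 : L)) (map4 E.bar l) (e + 4) = map4 E.bar (iterD (sg4 v) l5 4) := by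
    rw [hl5, ← iterD_add, hmap]
  rw [h6, a0, map4_nxt, map4_apply]
  simp only [E.bar_apply, hu, hh, nxt_const]
  rfl

end EngelQ
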