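import Pool.Agent.Lib.EngelQ.Cert

/-!
# The certificates for the 32 nodes
-/

namespace EngelQ

/-- A list of nodes `(g, k, m)` (with `h` the element number 9) together with five certificates. -/
def certData : List (ℕ × ℕ × ℕ × List (ℕ × ℕ × ℕ) × List (ℕ × ℕ × ℕ) × List (ℕ × ℕ × ℕ) ×
    List (ℕ × ℕ × ℕ) × List (ℕ × ℕ × ℕ)) := [
  (5, 23, 32,
    [(0, 0, 1), (0, 3, 2), (1, 0, 1), (1, 2, 2), (1, 3, 2), (1, 4, 1), (2, 0, 2), (2, 1, 1), (2,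
      3, 1), (2, 4, 2)],
    [(0, 0, 2), (0, 3, 1), (1, 0, 1), (1, 1, 2), (1, 3, 2), (1, 4, 1), (2, 0, 2), (2, 1, 1), (2,
      3, 1), (2, 4, 2)],
    [(0, 1, 2), (0, 4, 1), (1, 0, 1), (1, 1, 1), (1, 2, 2), (1, 3, 2), (2, 0, 2), (2, 3, 1)],
    [(0, 1, 1), (0, 4, 2), (1, 0, 1), (1, 1, 1), (1, 2, 2), (1, 3, 1), (1, 4, 1), (2, 0, 2), (2,
      3, 1)],
    [(0, 1, 2), (0, 2, 1), (0, 3, 1), (0, 4, 2), (1, 0, 2), (1, 1, 2), (1, 3, 2), (2, 1, 1), (2,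
      2, 2), (2, 3, 2), (2, 4, 1), (3, 0, 2), (3, 1, 1), (3, 2, 2), (3, 4, 1), (4, 0, 1), (4, 1,
      2), (4, 2, 2), (4, 4, 1)]),
  (5, 33, 17,
    [(0, 0, 2), (0, 1, 1), (0, 3, 1), (0, 4, 2), (1, 0, 2), (1, 2, 1), (1, 3, 2), (1, 4, 1), (2,
      0, 2), (2, 1, 1), (2, 3, 1), (2, 4, 2)],
    [(0, 1, 1), (0, 4, 2), (1, 0, 2), (1, 1, 2), (1, 2, 2), (1, 3, 2), (1, 4, 1), (2, 0, 2), (2,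
      1, 1), (2, 3, 1), (2, 4, 2)],
    [(0, 1, 1), (0, 4, 2), (1, 0, 2), (1, 1, 2), (1, 2, 1), (1, 3, 1), (2, 0, 2), (2, 3, 1)],
    [(1, 0, 2), (1, 1, 2), (1, 2, 1), (1, 4, 1), (2, 0, 2), (2, 3, 1)],
    [(0, 0, 2), (0, 2, 1), (1, 1, 2), (1, 3, 1), (2, 2, 1), (2, 3, 2), (3, 3, 2), (3, 4, 1), (4,
      0, 1), (4, 1, 1), (4, 2, 2), (4, 4, 2)]),
  (12, 0, 28,
    [(0, 0, 1), (0, 3, 2), (1, 0, 2), (1, 1, 1)],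
    [(0, 0, 2), (0, 4, 1), (1, 0, 2), (1, 1, 2), (1, 2, 1), (1, 3, 1), (2, 0, 2), (2, 3, 1)],
    [(0, 0, 2), (0, 1, 2), (0, 4, 2), (1, 0, 2), (1, 1, 2), (1, 3, 2), (2, 0, 2), (2, 3, 1)],
    [(0, 0, 2), (0, 1, 1), (0, 2, 1), (0, 4, 2), (1, 0, 2), (1, 1, 2), (1, 2, 2), (1, 3, 1), (1,
      4, 2), (2, 1, 2), (2, 4, 1)],
    [(0, 0, 1), (0, 2, 1), (0, 3, 2), (0, 4, 2), (1, 1, 1), (1, 3, 2), (2, 0, 2), (2, 1, 2), (2,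
      2, 2), (2, 3, 1), (2, 4, 2), (3, 3, 2), (3, 4, 1), (4, 0, 2), (4, 1, 1), (4, 3, 2), (4, 4,
      1)]),
  (12, 9, 15,
    [(0, 0, 1), (0, 3, 2), (1, 0, 2), (1, 1, 1)],
    [(0, 0, 1), (0, 1, 2), (1, 0, 1), (1, 1, 1), (1, 2, 1), (2, 0, 2), (2, 3, 1)],
    [(0, 0, 1), (0, 1, 1), (0, 4, 1), (1, 0, 1), (1, 1, 1), (1, 3, 1), (2, 0, 2), (2, 3, 1)],
    [(0, 1, 2), (0, 2, 2), (0, 3, 1), (0, 4, 1), (1, 0, 2), (1, 2, 1), (1, 3, 2), (1, 4, 1), (2,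
      1, 2), (2, 4, 1)],
    [(0, 0, 1), (0, 2, 2), (0, 3, 1), (0, 4, 2), (1, 1, 1), (1, 4, 2), (2, 0, 1), (2, 2, 2), (2,
      3, 1), (2, 4, 2), (3, 0, 2), (3, 1, 2), (3, 2, 1), (3, 3, 2), (3, 4, 2), (4, 0, 1), (4, 1,
      2), (4, 2, 2), (4, 3, 1)]),
  (19, 26, 10,
    [(0, 1, 2), (0, 4, 1), (1, 1, 2), (1, 2, 1), (1, 3, 2), (1, 4, 1), (2, 0, 2), (2, 1, 1), (2,
      3, 1), (2, 4, 2)],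
    [(0, 1, 1), (0, 4, 2), (1, 0, 2), (1, 2, 1)],
    [(0, 0, 1), (0, 1, 2), (0, 3, 2), (0, 4, 1), (1, 0, 1), (1, 4, 2), (2, 0, 2), (2, 3, 1)],
    [(0, 0, 2), (0, 1, 2), (0, 3, 1), (0, 4, 1), (1, 0, 1), (1, 3, 2), (2, 0, 2), (2, 3, 1)],
    [(0, 0, 2), (0, 2, 1), (0, 3, 2), (0, 4, 1), (1, 0, 2), (1, 1, 2), (1, 4, 2), (2, 0, 1), (2,
      2, 2), (2, 3, 1), (2, 4, 2), (3, 0, 1), (3, 1, 2), (3, 2, 2), (3, 3, 1), (4, 0, 2), (4, 1,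
      1), (4, 2, 2), (4, 3, 1)]),
  (19, 54, 34,
    [(0, 0, 2), (0, 1, 1), (0, 3, 1), (0, 4, 2), (1, 1, 1), (1, 2, 2), (1, 3, 2), (1, 4, 1), (2,
      0, 2), (2, 1, 1), (2, 3, 1), (2, 4, 2)],
    [(0, 1, 1), (0, 4, 2), (1, 0, 2), (1, 2, 1)],
    [(0, 0, 2), (0, 1, 1), (0, 3, 1), (0, 4, 2), (1, 0, 2), (1, 4, 1), (2, 0, 2), (2, 3, 1)],
    [(0, 1, 1), (0, 4, 2), (1, 0, 2), (1, 3, 2), (1, 4, 2), (2, 0, 2), (2, 3, 1)],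
    [(0, 1, 2), (0, 2, 1), (1, 0, 2), (1, 4, 1), (2, 2, 1), (2, 4, 2), (3, 3, 1), (3, 4, 2), (4,
      0, 1), (4, 1, 1), (4, 2, 2), (4, 3, 2)]),
  (20, 27, 46,
    [(0, 0, 1), (0, 3, 2), (1, 0, 2), (1, 1, 2), (1, 2, 1), (1, 3, 2), (1, 4, 2), (2, 1, 1), (2,
      4, 2)],
    [(0, 0, 1), (0, 1, 2), (0, 3, 2), (0, 4, 1), (1, 2, 1), (1, 3, 1), (1, 4, 1), (2, 0, 2), (2,
      3, 1)],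
    [(0, 0, 1), (0, 1, 1), (0, 3, 2), (0, 4, 2), (1, 3, 2), (1, 4, 1), (2, 0, 2), (2, 3, 1)],
    [(0, 0, 2), (0, 3, 1), (1, 0, 2), (1, 4, 1)],
    [(0, 0, 1), (0, 2, 2), (0, 3, 1), (0, 4, 2), (1, 1, 1), (1, 3, 1), (1, 4, 1), (2, 0, 2), (2,
      2, 1), (2, 3, 2), (2, 4, 1), (3, 0, 2), (3, 1, 1), (3, 2, 1), (3, 3, 2), (4, 0, 2), (4, 1,
      2), (4, 2, 1), (4, 3, 1)]),
  (20, 55, 6,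
    [(1, 0, 2), (1, 1, 1), (1, 2, 2), (1, 3, 1), (2, 1, 1), (2, 4, 2)],
    [(0, 0, 2), (0, 3, 1), (1, 2, 1), (1, 4, 2), (2, 0, 2), (2, 3, 1)],
    [(0, 0, 2), (0, 1, 2), (0, 3, 1), (0, 4, 1), (1, 3, 1), (1, 4, 2), (2, 0, 2), (2, 3, 1)],
    [(0, 0, 2), (0, 3, 1), (1, 0, 2), (1, 4, 1)],
    [(0, 1, 1), (0, 2, 2), (1, 3, 1), (1, 4, 2), (2, 2, 2), (2, 4, 1), (3, 0, 2), (3, 4, 1), (4,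
      0, 1), (4, 1, 2), (4, 2, 1), (4, 3, 2)]),
  (23, 5, 3,
    [(0, 1, 1), (0, 4, 2), (1, 0, 2), (1, 1, 1)],
    [(0, 0, 1), (0, 1, 2), (0, 3, 2), (0, 4, 1), (1, 1, 1), (1, 2, 1), (1, 4, 1), (2, 1, 2), (2,
      4, 1)],
    [(0, 1, 2), (0, 4, 1), (1, 0, 1), (1, 2, 1), (1, 3, 2), (1, 4, 2), (2, 0, 2), (2, 3, 1)],
    [(0, 0, 2), (0, 1, 2), (0, 3, 1), (0, 4, 1), (1, 1, 1), (1, 4, 2), (2, 1, 2), (2, 4, 1)],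
    [(0, 0, 1), (0, 1, 2), (0, 2, 1), (0, 4, 2), (1, 0, 2), (1, 3, 2), (1, 4, 2), (2, 0, 2), (2,
      1, 1), (2, 2, 2), (2, 4, 1), (3, 1, 1), (3, 2, 2), (3, 3, 2), (3, 4, 1), (4, 1, 1), (4, 2,
      2), (4, 3, 1), (4, 4, 2)]),
  (23, 31, 14,
    [(0, 1, 1), (0, 4, 2), (1, 0, 2), (1, 1, 1)],
    [(1, 0, 1), (1, 1, 1), (1, 2, 1), (2, 1, 2), (2, 4, 1)],
    [(0, 1, 1), (0, 4, 2), (1, 0, 2), (1, 2, 2), (1, 3, 1), (1, 4, 1), (2, 0, 2), (2, 3, 1)],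
    [(0, 0, 1), (0, 3, 2), (1, 0, 1), (1, 1, 1), (1, 4, 1), (2, 1, 2), (2, 4, 1)],
    [(0, 2, 1), (0, 3, 2), (1, 0, 1), (1, 4, 2), (2, 0, 2), (2, 2, 1), (3, 0, 2), (3, 1, 1), (4,
      1, 2), (4, 2, 2), (4, 3, 1), (4, 4, 1)]),
  (26, 12, 28,
    [(0, 0, 2), (0, 3, 1), (1, 0, 2), (1, 1, 1)],
    [(0, 0, 2), (0, 3, 1), (1, 1, 2), (1, 2, 1), (2, 0, 2), (2, 3, 1)],
    [(0, 0, 2), (0, 1, 1), (0, 3, 1), (0, 4, 2), (1, 1, 2), (1, 3, 1), (2, 0, 2), (2, 3, 1)],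
    [(1, 0, 2), (1, 2, 2), (1, 3, 1), (1, 4, 1), (2, 1, 2), (2, 4, 1)],
    [(0, 2, 1), (0, 4, 2), (1, 1, 1), (1, 3, 2), (2, 1, 2), (2, 2, 1), (3, 0, 1), (3, 1, 2), (4,
      0, 2), (4, 2, 2), (4, 3, 1), (4, 4, 1)]),
  (26, 19, 1,
    [(0, 0, 2), (0, 3, 1), (1, 0, 2), (1, 1, 1)],
    [(0, 0, 1), (0, 1, 1), (0, 3, 2), (0, 4, 2), (1, 1, 1), (1, 2, 1), (1, 3, 1), (2, 0, 2), (2,
      3, 1)],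
    [(0, 0, 1), (0, 1, 2), (0, 3, 2), (0, 4, 1), (1, 1, 1), (1, 3, 2), (2, 0, 2), (2, 3, 1)],
    [(0, 0, 1), (0, 3, 2), (1, 0, 2), (1, 1, 2), (1, 2, 1), (1, 3, 2), (1, 4, 2), (2, 1, 2), (2,
      4, 1)],
    [(0, 0, 2), (0, 1, 1), (0, 2, 1), (0, 3, 2), (1, 1, 2), (1, 3, 2), (1, 4, 2), (2, 0, 1), (2,
      1, 2), (2, 2, 2), (2, 3, 1), (3, 0, 1), (3, 2, 2), (3, 3, 1), (3, 4, 2), (4, 0, 1), (4, 2,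
      2), (4, 3, 2), (4, 4, 1)]),
  (27, 20, 50,
    [(0, 0, 2), (0, 1, 1), (0, 3, 1), (0, 4, 2), (1, 0, 1), (1, 3, 2), (2, 0, 2), (2, 3, 1)],
    [(0, 1, 2), (0, 4, 1), (1, 0, 2), (1, 2, 1)],
    [(0, 0, 1), (0, 1, 1), (0, 3, 2), (0, 4, 2), (1, 0, 1), (1, 1, 2), (2, 0, 2), (2, 3, 1)],
    [(0, 1, 1), (0, 4, 2), (1, 1, 1), (1, 2, 1), (1, 3, 2), (1, 4, 2), (2, 0, 2), (2, 1, 2), (2,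
      3, 1), (2, 4, 1)],
    [(0, 0, 1), (0, 1, 2), (0, 2, 2), (0, 3, 1), (1, 0, 1), (1, 1, 1), (1, 4, 1), (2, 0, 2), (2,
      1, 1), (2, 2, 1), (2, 3, 2), (3, 0, 2), (3, 2, 1), (3, 3, 2), (3, 4, 1), (4, 0, 1), (4, 2,
      1), (4, 3, 2), (4, 4, 2)]),
  (27, 52, 24,
    [(0, 1, 2), (0, 4, 1), (1, 0, 2), (1, 1, 2), (1, 3, 2), (2, 0, 2), (2, 3, 1)],
    [(0, 1, 2), (0, 4, 1), (1, 0, 2), (1, 2, 1)],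
    [(0, 0, 2), (0, 1, 2), (0, 3, 1), (0, 4, 1), (1, 0, 2), (1, 1, 1), (2, 0, 2), (2, 3, 1)],
    [(0, 0, 2), (0, 1, 2), (0, 3, 1), (0, 4, 1), (1, 1, 1), (1, 2, 2), (1, 3, 2), (1, 4, 1), (2,
      0, 2), (2, 1, 2), (2, 3, 1), (2, 4, 1)],
    [(0, 2, 2), (0, 4, 1), (1, 0, 1), (1, 1, 2), (2, 1, 1), (2, 2, 2), (3, 1, 1), (3, 3, 2), (4,
      0, 2), (4, 2, 1), (4, 3, 1), (4, 4, 2)]),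
  (29, 35, 36,
    [(0, 1, 2), (0, 4, 1), (1, 0, 1), (1, 1, 1), (1, 2, 2), (1, 3, 1), (1, 4, 1), (2, 0, 2), (2,
      3, 1)],
    [(0, 0, 2), (0, 3, 1), (1, 0, 1), (1, 1, 1), (1, 3, 2), (1, 4, 2), (2, 0, 2), (2, 1, 2), (2,
      3, 1), (2, 4, 1)],
    [(0, 1, 1), (0, 4, 2), (1, 0, 1), (1, 2, 2), (1, 3, 2), (1, 4, 1), (2, 0, 2), (2, 3, 1)],
    [(0, 0, 1), (0, 3, 2), (1, 0, 1), (1, 1, 1), (1, 2, 2), (1, 3, 2), (2, 0, 2), (2, 1, 2), (2,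
      3, 1), (2, 4, 1)],
    [(0, 1, 1), (0, 2, 2), (0, 3, 2), (0, 4, 1), (1, 0, 1), (1, 3, 1), (1, 4, 1), (2, 1, 2), (2,
      2, 1), (2, 3, 1), (2, 4, 2), (3, 0, 1), (3, 1, 2), (3, 2, 1), (3, 4, 2), (4, 0, 2), (4, 1,
      2), (4, 2, 1), (4, 4, 1)]),
  (29, 59, 15,
    [(1, 0, 2), (1, 1, 1), (1, 2, 1), (1, 4, 2), (2, 0, 2), (2, 3, 1)],
    [(0, 1, 2), (0, 4, 1), (1, 0, 2), (1, 1, 1), (1, 2, 2), (1, 3, 2), (1, 4, 2), (2, 0, 2), (2,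
      1, 2), (2, 3, 1), (2, 4, 1)],
    [(0, 1, 2), (0, 4, 1), (1, 0, 2), (1, 2, 1), (1, 3, 1), (1, 4, 2), (2, 0, 2), (2, 3, 1)],
    [(0, 0, 2), (0, 1, 2), (0, 3, 1), (0, 4, 1), (1, 0, 2), (1, 1, 1), (1, 2, 1), (1, 3, 2), (2,
      0, 2), (2, 1, 2), (2, 3, 1), (2, 4, 1)],
    [(0, 0, 1), (0, 2, 2), (1, 3, 2), (1, 4, 1), (2, 2, 2), (2, 3, 1), (3, 1, 2), (3, 3, 1), (4,
      0, 2), (4, 1, 1), (4, 2, 1), (4, 4, 2)]),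
  (31, 0, 14,
    [(0, 1, 2), (0, 4, 1), (1, 0, 2), (1, 1, 1)],
    [(0, 1, 1), (0, 3, 1), (0, 4, 1), (1, 0, 1), (1, 2, 1), (1, 4, 1), (2, 1, 2), (2, 4, 1)],
    [(0, 0, 1), (0, 1, 1), (0, 2, 1), (0, 3, 2), (0, 4, 1), (1, 0, 1), (1, 2, 2), (1, 3, 2), (1,
      4, 1), (2, 0, 2), (2, 3, 1)],
    [(0, 0, 2), (0, 1, 1), (0, 3, 2), (0, 4, 1), (1, 0, 1), (1, 4, 2), (2, 1, 2), (2, 4, 1)],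
    [(0, 1, 1), (0, 2, 1), (0, 3, 2), (0, 4, 2), (1, 0, 1), (1, 4, 2), (2, 0, 2), (2, 1, 2), (2,
      2, 2), (2, 3, 2), (2, 4, 1), (3, 3, 1), (3, 4, 2), (4, 0, 1), (4, 1, 2), (4, 3, 1), (4, 4,
      2)]),
  (31, 9, 6,
    [(0, 1, 2), (0, 4, 1), (1, 0, 2), (1, 1, 1)],
    [(0, 0, 2), (0, 4, 1), (1, 1, 2), (1, 2, 1), (2, 1, 2), (2, 4, 1)],
    [(0, 0, 2), (0, 1, 2), (0, 2, 2), (0, 3, 1), (0, 4, 2), (1, 0, 2), (1, 2, 1), (1, 3, 1), (1,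
      4, 2), (2, 0, 2), (2, 3, 1)],
    [(0, 0, 1), (0, 3, 1), (0, 4, 1), (1, 1, 2), (1, 4, 1), (2, 1, 2), (2, 4, 1)],
    [(0, 1, 1), (0, 2, 2), (0, 3, 2), (0, 4, 1), (1, 0, 1), (1, 3, 2), (2, 1, 1), (2, 2, 2), (2,
      3, 2), (2, 4, 1), (3, 0, 2), (3, 1, 2), (3, 2, 1), (3, 3, 2), (3, 4, 2), (4, 0, 2), (4, 1,
      1), (4, 2, 2), (4, 4, 1)]),
  (33, 0, 17,
    [(0, 2, 2), (0, 3, 1), (1, 0, 1), (1, 1, 1), (1, 2, 1), (2, 0, 2), (2, 1, 1), (2, 3, 1), (2,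
      4, 2)],
    [(0, 0, 2), (0, 2, 2), (0, 3, 2), (1, 0, 1), (1, 2, 2), (2, 0, 2), (2, 1, 1), (2, 3, 1), (2,
      4, 2)],
    [(0, 0, 1), (0, 1, 2), (0, 2, 2), (0, 3, 2), (0, 4, 2), (1, 0, 1), (1, 1, 2), (1, 2, 1), (1,
      3, 2), (2, 0, 2), (2, 3, 1)],
    [(0, 0, 1), (0, 2, 2), (0, 3, 2), (0, 4, 1), (1, 0, 1), (1, 1, 2), (1, 2, 1), (1, 3, 1), (1,
      4, 1), (2, 0, 2), (2, 3, 1)],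
    [(0, 0, 2), (0, 1, 2), (0, 2, 1), (0, 4, 1), (1, 1, 2), (1, 3, 1), (2, 0, 2), (2, 1, 1), (2,
      2, 2), (2, 3, 2), (2, 4, 2), (3, 0, 1), (3, 1, 2), (4, 0, 1), (4, 1, 2), (4, 3, 1), (4, 4,
      2)]),
  (33, 9, 24,
    [(0, 1, 2), (0, 2, 1), (0, 3, 2), (0, 4, 1), (1, 0, 2), (1, 1, 2), (1, 2, 2), (1, 3, 1), (1,
      4, 2), (2, 0, 2), (2, 1, 1), (2, 3, 1), (2, 4, 2)],
    [(0, 0, 2), (0, 1, 2), (0, 2, 1), (0, 4, 1), (1, 0, 2), (1, 1, 1), (1, 3, 1), (1, 4, 2), (2,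
      0, 2), (2, 1, 1), (2, 3, 1), (2, 4, 2)],
    [(0, 0, 2), (0, 1, 1), (0, 2, 1), (0, 3, 1), (0, 4, 1), (1, 0, 2), (1, 1, 1), (1, 2, 2), (1,
      3, 1), (2, 0, 2), (2, 3, 1)],
    [(0, 0, 2), (0, 1, 2), (0, 2, 1), (0, 3, 1), (1, 0, 2), (1, 1, 1), (1, 2, 2), (1, 4, 1), (2,
      0, 2), (2, 3, 1)],
    [(0, 0, 2), (0, 1, 1), (0, 2, 2), (0, 4, 1), (1, 0, 2), (1, 3, 1), (2, 0, 2), (2, 1, 1), (2,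
      2, 2), (2, 4, 1), (3, 0, 2), (3, 1, 2), (3, 2, 1), (3, 3, 2), (3, 4, 2), (4, 1, 1), (4, 2,
      2), (4, 3, 2), (4, 4, 1)]),
  (35, 29, 58,
    [(0, 0, 2), (0, 1, 1), (0, 3, 1), (0, 4, 2), (1, 1, 2), (1, 4, 1), (2, 1, 1), (2, 4, 2)],
    [(0, 0, 1), (0, 1, 1), (0, 3, 2), (0, 4, 2), (1, 1, 1), (1, 2, 1), (1, 4, 1), (2, 1, 1), (2,
      4, 2)],
    [(0, 1, 1), (0, 4, 2), (1, 0, 1), (1, 1, 2), (1, 2, 1), (1, 3, 2), (2, 0, 2), (2, 3, 1)],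
    [(0, 1, 2), (0, 4, 1), (1, 0, 2), (1, 4, 1)],
    [(0, 0, 2), (0, 1, 1), (0, 2, 2), (0, 4, 1), (1, 0, 1), (1, 1, 1), (1, 3, 1), (2, 0, 1), (2,
      1, 2), (2, 2, 1), (2, 4, 2), (3, 1, 2), (3, 2, 1), (3, 3, 1), (3, 4, 2), (4, 1, 1), (4, 2,
      1), (4, 3, 2), (4, 4, 2)]),
  (35, 51, 13,
    [(0, 0, 1), (0, 3, 2), (1, 0, 1), (1, 1, 1), (1, 4, 1), (2, 1, 1), (2, 4, 2)],
    [(1, 0, 1), (1, 2, 1), (1, 4, 1), (2, 1, 1), (2, 4, 2)],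
    [(0, 1, 2), (0, 4, 1), (1, 0, 2), (1, 1, 1), (1, 2, 2), (1, 3, 1), (2, 0, 2), (2, 3, 1)],
    [(0, 1, 2), (0, 4, 1), (1, 0, 2), (1, 4, 1)],
    [(0, 2, 2), (0, 3, 1), (1, 0, 2), (1, 1, 1), (2, 0, 1), (2, 2, 2), (3, 0, 1), (3, 4, 2), (4,
      1, 2), (4, 2, 1), (4, 3, 2), (4, 4, 1)]),
  (51, 0, 13,
    [(0, 0, 2), (0, 1, 1), (0, 3, 2), (0, 4, 1), (1, 0, 1), (1, 1, 2), (2, 1, 1), (2, 4, 2)],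
    [(0, 1, 1), (0, 3, 1), (0, 4, 1), (1, 0, 1), (1, 1, 1), (1, 2, 1), (2, 1, 1), (2, 4, 2)],
    [(0, 0, 1), (0, 1, 1), (0, 2, 1), (0, 3, 2), (0, 4, 1), (1, 0, 1), (1, 1, 1), (1, 2, 2), (1,
      3, 2), (2, 0, 2), (2, 3, 1)],
    [(0, 1, 1), (0, 4, 2), (1, 0, 2), (1, 4, 1)],
    [(0, 1, 1), (0, 2, 2), (0, 3, 1), (0, 4, 2), (1, 0, 2), (1, 1, 1), (2, 0, 1), (2, 1, 2), (2,
      2, 1), (2, 3, 1), (2, 4, 1), (3, 1, 1), (3, 3, 2), (4, 0, 2), (4, 1, 1), (4, 3, 2), (4, 4,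
      1)]),
  (51, 9, 28,
    [(0, 0, 1), (0, 1, 1), (0, 3, 1), (1, 1, 1), (1, 4, 2), (2, 1, 1), (2, 4, 2)],
    [(0, 0, 2), (0, 1, 1), (1, 2, 1), (1, 4, 2), (2, 1, 1), (2, 4, 2)],
    [(0, 0, 2), (0, 1, 2), (0, 2, 2), (0, 3, 1), (0, 4, 2), (1, 0, 2), (1, 1, 2), (1, 2, 1), (1,
      3, 1), (2, 0, 2), (2, 3, 1)],
    [(0, 1, 1), (0, 4, 2), (1, 0, 2), (1, 4, 1)],
    [(0, 1, 2), (0, 2, 1), (0, 3, 1), (0, 4, 2), (1, 0, 2), (1, 3, 1), (2, 1, 2), (2, 2, 1), (2,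
      3, 1), (2, 4, 2), (3, 0, 1), (3, 1, 1), (3, 2, 2), (3, 3, 1), (3, 4, 1), (4, 0, 1), (4, 1,
      2), (4, 2, 1), (4, 4, 2)]),
  (52, 0, 24,
    [(0, 0, 2), (0, 1, 1), (0, 3, 2), (0, 4, 1), (1, 0, 1), (1, 1, 2), (2, 0, 2), (2, 3, 1)],
    [(0, 1, 1), (0, 4, 2), (1, 0, 2), (1, 2, 1)],
    [(0, 1, 1), (0, 3, 1), (0, 4, 1), (1, 0, 1), (1, 1, 1), (1, 3, 1), (2, 0, 2), (2, 3, 1)],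
    [(0, 1, 2), (0, 2, 1), (1, 0, 2), (1, 2, 2), (1, 4, 2), (2, 0, 2), (2, 1, 2), (2, 3, 1), (2,
      4, 1)],
    [(0, 0, 1), (0, 2, 2), (0, 3, 2), (0, 4, 1), (1, 0, 1), (1, 1, 2), (2, 0, 2), (2, 1, 1), (2,
      2, 1), (2, 3, 1), (2, 4, 1), (3, 0, 1), (3, 4, 2), (4, 0, 1), (4, 1, 2), (4, 3, 1), (4, 4,
      2)]),
  (52, 9, 14,
    [(0, 0, 2), (0, 1, 2), (0, 4, 2), (1, 0, 2), (1, 3, 1), (2, 0, 2), (2, 3, 1)],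
    [(0, 1, 1), (0, 4, 2), (1, 0, 2), (1, 2, 1)],
    [(0, 1, 2), (0, 3, 2), (0, 4, 2), (1, 0, 2), (1, 1, 2), (1, 3, 2), (2, 0, 2), (2, 3, 1)],
    [(0, 0, 1), (0, 1, 1), (0, 2, 2), (0, 3, 2), (1, 0, 1), (1, 1, 2), (1, 2, 1), (1, 3, 1), (1,
      4, 1), (2, 0, 2), (2, 1, 2), (2, 3, 1), (2, 4, 1)],
    [(0, 0, 2), (0, 2, 1), (0, 3, 2), (0, 4, 1), (1, 1, 2), (1, 4, 1), (2, 0, 2), (2, 2, 1), (2,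
      3, 2), (2, 4, 1), (3, 0, 1), (3, 1, 1), (3, 2, 2), (3, 3, 1), (3, 4, 1), (4, 0, 2), (4, 1,
      1), (4, 2, 1), (4, 3, 2)]),
  (54, 0, 34,
    [(0, 2, 1), (0, 4, 2), (1, 0, 2), (1, 1, 2), (1, 2, 2), (2, 0, 2), (2, 1, 1), (2, 3, 1), (2,
      4, 2)],
    [(0, 1, 2), (0, 4, 1), (1, 0, 2), (1, 2, 1)],
    [(0, 1, 1), (0, 3, 1), (0, 4, 1), (1, 0, 1), (1, 3, 1), (1, 4, 1), (2, 0, 2), (2, 3, 1)],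
    [(0, 0, 2), (0, 1, 1), (0, 3, 2), (0, 4, 1), (1, 0, 1), (1, 4, 2), (2, 0, 2), (2, 3, 1)],
    [(0, 0, 2), (0, 1, 2), (0, 2, 1), (0, 3, 1), (1, 0, 2), (1, 4, 1), (2, 0, 1), (2, 1, 2), (2,
      2, 2), (2, 3, 2), (2, 4, 2), (3, 0, 2), (3, 1, 1), (4, 0, 2), (4, 1, 1), (4, 3, 2), (4, 4,
      1)]),
  (54, 9, 13,
    [(0, 0, 1), (0, 2, 2), (0, 3, 2), (0, 4, 1), (1, 0, 1), (1, 1, 1), (1, 2, 1), (1, 3, 1), (1,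
      4, 2), (2, 0, 2), (2, 1, 1), (2, 3, 1), (2, 4, 2)],
    [(0, 1, 2), (0, 4, 1), (1, 0, 2), (1, 2, 1)],
    [(0, 1, 2), (0, 3, 2), (0, 4, 2), (1, 0, 2), (1, 3, 2), (1, 4, 2), (2, 0, 2), (2, 3, 1)],
    [(0, 0, 2), (0, 1, 2), (0, 4, 2), (1, 0, 2), (1, 3, 1), (2, 0, 2), (2, 3, 1)],
    [(0, 0, 1), (0, 1, 2), (0, 2, 2), (0, 3, 1), (1, 1, 2), (1, 4, 1), (2, 0, 1), (2, 1, 2), (2,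
      2, 2), (2, 3, 1), (3, 0, 2), (3, 1, 2), (3, 2, 1), (3, 3, 2), (3, 4, 2), (4, 0, 1), (4, 2,
      2), (4, 3, 1), (4, 4, 2)]),
  (55, 0, 6,
    [(0, 0, 2), (0, 1, 2), (0, 2, 1), (0, 4, 1), (1, 0, 2), (1, 1, 2), (1, 2, 2), (1, 3, 1), (1,
      4, 2), (2, 1, 1), (2, 4, 2)],
    [(0, 0, 2), (0, 1, 1), (1, 0, 2), (1, 2, 1), (1, 3, 1), (1, 4, 2), (2, 0, 2), (2, 3, 1)],
    [(0, 0, 2), (0, 1, 2), (0, 4, 2), (1, 0, 2), (1, 3, 2), (1, 4, 2), (2, 0, 2), (2, 3, 1)],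
    [(0, 0, 1), (0, 3, 2), (1, 0, 2), (1, 4, 1)],
    [(0, 0, 2), (0, 1, 1), (0, 2, 2), (0, 3, 1), (1, 3, 1), (1, 4, 2), (2, 0, 1), (2, 1, 1), (2,
      2, 1), (2, 3, 2), (2, 4, 1), (3, 1, 2), (3, 3, 1), (4, 0, 1), (4, 1, 2), (4, 3, 1), (4, 4,
      2)]),
  (55, 9, 17,
    [(0, 1, 1), (0, 2, 2), (0, 3, 1), (0, 4, 2), (1, 0, 2), (1, 1, 1), (1, 2, 1), (1, 3, 2), (2,
      1, 1), (2, 4, 2)],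
    [(0, 0, 1), (0, 4, 2), (1, 0, 1), (1, 2, 1), (1, 4, 1), (2, 0, 2), (2, 3, 1)],
    [(0, 0, 1), (0, 1, 1), (0, 4, 1), (1, 0, 1), (1, 3, 1), (1, 4, 1), (2, 0, 2), (2, 3, 1)],
    [(0, 0, 1), (0, 3, 2), (1, 0, 2), (1, 4, 1)],
    [(0, 0, 2), (0, 1, 1), (0, 2, 1), (0, 3, 2), (1, 1, 1), (1, 4, 2), (2, 0, 2), (2, 1, 1), (2,
      2, 1), (2, 3, 2), (3, 0, 1), (3, 1, 1), (3, 2, 2), (3, 3, 1), (3, 4, 1), (4, 0, 2), (4, 2,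
      1), (4, 3, 2), (4, 4, 1)]),
  (59, 0, 15,
    [(0, 0, 1), (0, 1, 1), (0, 2, 2), (0, 3, 2), (1, 0, 1), (1, 1, 1), (1, 2, 1), (1, 3, 1), (1,
      4, 2), (2, 0, 2), (2, 3, 1)],
    [(0, 0, 2), (0, 2, 2), (0, 3, 2), (1, 0, 1), (1, 2, 2), (2, 0, 2), (2, 1, 2), (2, 3, 1), (2,
      4, 1)],
    [(0, 0, 1), (0, 1, 2), (0, 2, 2), (0, 3, 2), (0, 4, 2), (1, 0, 1), (1, 2, 1), (1, 3, 2), (1,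
      4, 2), (2, 0, 2), (2, 3, 1)],
    [(0, 2, 2), (0, 3, 1), (1, 0, 1), (1, 2, 1), (1, 4, 1), (2, 0, 2), (2, 1, 2), (2, 3, 1), (2,
      4, 1)],
    [(0, 0, 1), (0, 1, 2), (0, 2, 2), (0, 4, 1), (1, 3, 2), (1, 4, 1), (2, 0, 1), (2, 1, 1), (2,
      2, 1), (2, 3, 1), (2, 4, 2), (3, 0, 2), (3, 4, 1), (4, 0, 2), (4, 1, 1), (4, 3, 2), (4, 4,
      1)]),
  (59, 9, 34,
    [(0, 0, 2), (0, 2, 1), (0, 3, 1), (0, 4, 2), (1, 0, 2), (1, 1, 1), (1, 2, 2), (1, 4, 1), (2,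
      0, 2), (2, 3, 1)],
    [(0, 0, 2), (0, 1, 1), (0, 2, 1), (0, 4, 2), (1, 0, 2), (1, 1, 2), (1, 3, 1), (1, 4, 1), (2,
      0, 2), (2, 1, 2), (2, 3, 1), (2, 4, 1)],
    [(0, 0, 2), (0, 1, 1), (0, 2, 1), (0, 3, 1), (0, 4, 1), (1, 0, 2), (1, 2, 2), (1, 3, 1), (1,
      4, 1), (2, 0, 2), (2, 3, 1)],
    [(0, 1, 1), (0, 2, 1), (0, 3, 2), (0, 4, 2), (1, 0, 2), (1, 1, 2), (1, 2, 2), (1, 3, 1), (1,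
      4, 2), (2, 0, 2), (2, 1, 2), (2, 3, 1), (2, 4, 1)],
    [(0, 0, 1), (0, 1, 2), (0, 2, 1), (0, 4, 2), (1, 0, 1), (1, 3, 2), (2, 0, 1), (2, 1, 2), (2,
      2, 1), (2, 4, 2), (3, 0, 1), (3, 1, 1), (3, 2, 2), (3, 3, 1), (3, 4, 1), (4, 1, 2), (4, 2,
      1), (4, 3, 1), (4, 4, 2)])]

end EngelQ
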