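import Pool.Agent.Lib.EngelQ.A5

/-!
# The extension `E` of `L` by an elementary abelian group of order `3 ^ 5`
-/

namespace EngelQ

/-- The pairs `(g, f)` with `f : Fin 5 → ZMod 9` congruent to the cocycle of `g` modulo three. -/
@[ext] structure E where
  /-- The component in `L`. -/
  g : L
  /-- The component with values modulo nine. -/
  f : Fin 5 → ZMod 9
  /-- The congruence. -/
  hf : ∀ p, 3 * f p = 3 * c g p

namespace E

instance : Mul E := ⟨fun a b => ⟨a.g * b.g, fun p => a.f p + b.f (act a.g p), fun p => by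
  rw [c_mul, mul_add, mul_add, a.hf, b.hf]⟩⟩

instance : One E := ⟨⟨1, fun _ => 0, by decide +kernel⟩⟩

lemma c_one (p : Fin 5) : 3 * c 1 p = 0 := by
  revert p
  decide +kernel

lemma c_inv (a : L) (p : Fin 5) : 3 * c a⁻¹ p = 3 * -(c a (act a⁻¹ p)) := by
  have h := c_mul a⁻¹ a p
  have h1 : 3 * c 1 p = 0 := c_one p
  rw [inv_mul_cancel, h1, mul_add] at h
  rw [mul_neg]
  exact eq_neg_of_add_eq_zero_left h.symm

instance : Inv E := ⟨fun a => ⟨a.g⁻¹, fun p => -a.f (act a.g⁻¹ p), fun p => by
  rw [c_inv, mul_neg, mul_neg, a.hf]⟩⟩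

@[simp] lemma g_mul (a b : E) : (a * b).g = a.g * b.g := rfl
@[simp] lemma f_mul (a b : E) (p : Fin 5) : (a * b).f p = a.f p + b.f (act a.g p) := rfl
@[simp] lemma g_one : (1 : E).g = 1 := rfl
@[simp] lemma f_one (p : Fin 5) : (1 : E).f p = 0 := rfl
@[simp] lemma g_inv (a : E) : (a⁻¹).g = a.g⁻¹ := rfl
@[simp] lemma f_inv (a : E) (p : Fin 5) : (a⁻¹).f p = -a.f (act a.g⁻¹ p) := rfl

lemma ext' {a b : E} (h : a.g = b.g) (h2 : ∀ p, a.f p = b.f p) : a = b :=
  E.ext h (funext h2)

instance : Group E := Group.ofLeftAxioms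
  (fun a b d => ext' (mul_assoc _ _ _) fun p => by
    simp only [f_mul, g_mul, act_mul, add_assoc])
  (fun a => ext' (one_mul _) fun p => by simp only [f_mul, f_one, g_one, act_one, zero_add])
  (fun a => ext' (inv_mul_cancel _) fun p => by
    simp only [f_mul, f_inv, g_inv, f_one, neg_add_cancel])

/-- The projection of `E` on `L`. -/
def bar : E →* L where
  toFun := E.g
  map_one' := rfl
  map_mul' _ _ := rfl

@[simp] lemma bar_apply (a : E) : bar a = a.g := rfl

lemma bar_surjective : Function.Surjective bar := by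
  intro a
  exact ⟨⟨a, c a, fun _ => rfl⟩, rfl⟩

instance : Finite E := by
  have : Function.Injective (fun a : E => (a.g, a.f)) := by
    intro a b h
    simp only [Prod.mk.injEq] at h
    exact E.ext h.1 h.2
  exact Finite.of_injective _ this

lemma three_f {a : E} (h : a.g = 1) (p : Fin 5) : 3 * a.f p = 0 := by
  rw [a.hf, h]
  exact c_one p

lemma comm_of_bar {a b : E} (ha : a.g = 1) (hb : b.g = 1) : a * b = b * a :=
  ext' (by simp [ha, hb]) fun p => by simp [ha, hb, add_comm]

lemma cube_of_bar {a : E} (ha : a.g = 1) : a ^ 3 = 1 := by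
  rw [pow_succ, pow_two]
  refine ext' (by simp [ha]) fun p => ?_
  have := three_f ha p
  simp only [f_mul, g_mul, ha, one_mul, act_one, f_one]
  rw [← this]
  ring

end E

end EngelQ
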