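import Pool.Agent.Lib.EngelQ.Data

/-!
# Kernel checks: enumeration of the level four nodes and verification of the certificates
-/

namespace EngelQ

set_option maxRecDepth 100000

/-- The numbers of the letters. -/
def barT (h g k m : ℕ) : ℕ → ℕ
  | 0 => 0
  | 1 => h
  | 2 => g
  | 3 => k
  | 4 => m
  | _ => 0

/-- Check of one entry of the data. -/
def chkNode (d : ℕ × ℕ × ℕ × List (ℕ × ℕ × ℕ) × List (ℕ × ℕ × ℕ) × List (ℕ × ℕ × ℕ) ×
    List (ℕ × ℕ × ℕ) × List (ℕ × ℕ × ℕ)) : Bool :=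
  chkV (barT 9 d.1 d.2.1 d.2.2.1) 1 d.2.2.2.1 && (
  chkV (barT 9 d.1 d.2.1 d.2.2.1) 2 d.2.2.2.2.1 && (
  chkV (barT 9 d.1 d.2.1 d.2.2.1) 3 d.2.2.2.2.2.1 && (
  chkV (barT 9 d.1 d.2.1 d.2.2.1) 4 d.2.2.2.2.2.2.1 &&
  chkF (barT 9 d.1 d.2.1 d.2.2.1) d.2.2.2.2.2.2.2)))

theorem chkData : certData.all chkNode = true := by
  decide +kernel

/-- Is `(g, k, m)` in the data? -/
def inData (g k m : ℕ) : Bool :=
  certData.any fun d => Nat.beq d.1 g && (Nat.beq d.2.1 k && Nat.beq d.2.2.1 m)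

/-- The product on numbers. -/
def prT (s0 s1 s2 s3 : ℕ) : ℕ := mulT (mulT (mulT s0 s1) s2) s3

/-- If the product of `(s0, s1, s2, s3)` is `1`, then `f` holds for all predecessors. -/
def forPred (s0 s1 s2 s3 : ℕ) (f : ℕ → ℕ → ℕ → ℕ → Bool) : Bool :=
  force (prT s0 s1 s2 s3) fun S => !(Nat.beq S 0) ||
    allLt (fun x => force (mulT x s0) fun x1 => force (mulT x1 s1) fun x2 =>
      force (mulT x2 s2) fun x3 => f x x1 x2 x3) 60

/-- Level four. -/
def ef3 (g k m m1 m2 m3 : ℕ) : Bool :=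
  force (prT m m1 m2 m3) fun S => !(Nat.beq S 0) || inData g k m

/-- Level three. -/
def ef2 (g k k1 k2 k3 : ℕ) : Bool := forPred k k1 k2 k3 (ef3 g k)

/-- Level two. -/
def ef1 (g g1 g2 g3 : ℕ) : Bool := forPred g g1 g2 g3 (ef2 g)

theorem chkEnum : forPred 9 9 9 9 ef1 = true := by
  decide +kernel

/-- Elements of order dividing four other than `1` are conjugate to the element number nine. -/
theorem chkInv : allLt (fun a => Nat.beq a 0 || (!(Nat.beq (prT a a a a) 0) ||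
    !(allLt (fun x => !(Nat.beq (mulT (invT x) (mulT a x)) 9)) 60))) 60 = true := by
  decide +kernel

end EngelQ
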