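import Pool.Agent.Lib.EngelQ.Wreath

/-!
# The class of finite groups with (V-9) and (V-10) is not closed under quotients
-/

namespace EngelQ

/-- For a twist other than `1`, every finite depth over `L` is at most five. -/
lemma depth4 (π : L) (hπ : π ≠ 1) (l : L × L × L × L) (k : ℕ) (hk : iterD (sg4 π) l k = 1) :
    iterD (sg4 π) l 5 = 1 := by
  have h := (allLt_iff _ _).1 chk_reps π.val π.val_lt
  have h0 : Nat.beq π.val 0 = false := by
    rw [Bool.eq_false_iff]
    intro h8
    exact hπ (L.ext (Nat.eq_of_beq_eq_true h8))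
  rw [h0] at h
  simp only [Bool.false_or, Bool.not_eq_true', force_eq] at h
  obtain ⟨x, hx⟩ : ∃ x : L, (x⁻¹ * (π * x)).val = 1 ∨ (x⁻¹ * (π * x)).val = 2 ∨
      (x⁻¹ * (π * x)).val = 4 ∨ (x⁻¹ * (π * x)).val = 9 := by
    by_contra hne
    push Not at hne
    rw [Bool.eq_false_iff] at h
    apply h
    rw [allLt_iff]
    intro i hi
    obtain ⟨a1, a2, a3, a4⟩ := hne (L.mk i hi)
    simp only [L.val_mul, L.val_inv, L.val_mk] at a1 a2 a3 a4
    rw [Bool.not_eq_true', Bool.or_eq_false_iff, Bool.or_eq_false_iff, Bool.or_eq_false_iff]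
    refine ⟨?_, ?_, ?_, ?_⟩ <;>
    · rw [Bool.eq_false_iff]
      intro h8
      first
        | exact a1 (Nat.eq_of_beq_eq_true h8)
        | exact a2 (Nat.eq_of_beq_eq_true h8)
        | exact a3 (Nat.eq_of_beq_eq_true h8)
        | exact a4 (Nat.eq_of_beq_eq_true h8)
  have hc := chk4_all
  simp only [Bool.and_eq_true] at hc
  obtain ⟨c1, c2, c3, c4⟩ := hc
  have hchk : chk4 (x⁻¹ * π * x).val 4 = true := by
    rw [mul_assoc]
    rcases hx with hx | hx | hx | hx
    · rw [hx]; exact c1
    · rw [hx]; exact c2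
    · rw [hx]; exact c3
    · rw [hx]; exact c4
  rw [← iterD_cj4 x] at hk ⊢
  refine iterD_bound _ (map_one _) 5 (fun z hz => ?_) _ k hk
  exact chk4_sound _ 4 hchk z hz

/-- The core statement: finite depth over `E` means depth at most five over `L`. -/
theorem core (y : Wr E) (l : ZMod 4 → E) (k : ℕ) (hk : iterD (al y) l k = 1) :
    iterD (al (Wr.map E.bar y)) (E.bar.compLeft (ZMod 4) l) 5 = 1 := by
  funext i
  have h1 : iterD (sg4 (tw y i)) (Psi y i l) k = 1 := by
    rw [← iterD_map (Psi y i) (al y) (sg4 (tw y i)) (Psi_al y i) l k, hk, map_one]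
  have h2 : iterD (sg4 (E.bar (tw y i))) (map4 E.bar (Psi y i l)) 5 = 1 := by
    have h3 : iterD (sg4 (E.bar (tw y i))) (map4 E.bar (Psi y i l)) k = 1 := by
      rw [← iterD_map (map4 E.bar) (sg4 (tw y i)) (sg4 (E.bar (tw y i))) (map4_sg4 E.bar _),
        h1, map_one]
    by_cases hπ : E.bar (tw y i) = 1
    · have h4 := lift_depth hπ (Psi y i l) k h1
      rw [hπ]
      exact iterD_one_of_le _ (map_one _) _ (by norm_num) h4
    · exact depth4 _ hπ _ k h3
  rw [← Psi_map, ← tw_map, ← iterD_map (Psi (Wr.map E.bar y) i) (al (Wr.map E.bar y))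
    (sg4 (tw (Wr.map E.bar y) i)) (Psi_al _ i)] at h2
  exact congrArg Prod.fst h2

lemma mem_ker_iff {x : Wr E} (hx : Wr.map E.bar x = 1) :
    x = SemidirectProduct.inl x.left ∧ ∀ i, (x.left i).g = 1 := by
  have h1 : x.right = 1 := congrArg SemidirectProduct.right hx
  refine ⟨SemidirectProduct.ext rfl h1, fun i => ?_⟩
  exact congrFun (congrArg SemidirectProduct.left hx) i

lemma L_pow_thirty (a : L) : a ^ 30 = 1 := by
  revert a
  decide +kernel

lemma WrL_pow (q : Wr L) : q ^ 120 = 1 := by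
  have h4 : (q ^ 4).right = 1 := by
    have h : ∀ a : Multiplicative (ZMod 4), a ^ 4 = 1 := by decide +kernel
    change SemidirectProduct.rightHom (q ^ 4) = 1
    rw [map_pow, h]
  have h5 : q ^ 4 = SemidirectProduct.inl (q ^ 4).left := SemidirectProduct.ext rfl h4
  rw [show (120 : ℕ) = 4 * 30 from rfl, pow_mul, h5, ← map_pow]
  have h6 : (q ^ 4).left ^ 30 = 1 := by
    funext i
    exact L_pow_thirty _
  rw [h6, map_one]

/-- `Wr E` satisfies (V-9). -/
theorem VR_WrE : VR 9 (Wr E) := by
  rintro x y ⟨k, hk⟩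
  refine depth_ker (Wr.map E.bar) ?_ ?_ WrL_pow x y 6 ?_ k hk
  · intro a b ha hb
    obtain ⟨a1, a2⟩ := mem_ker_iff ha
    obtain ⟨b1, b2⟩ := mem_ker_iff hb
    rw [a1, b1, ← map_mul, ← map_mul]
    congr 1
    funext i
    exact E.comm_of_bar (a2 i) (b2 i)
  · intro a ha
    obtain ⟨a1, a2⟩ := mem_ker_iff ha
    rw [a1, ← map_pow]
    have : a.left ^ 3 = 1 := by
      funext i
      exact E.cube_of_bar (a2 i)
    rw [this, map_one]
  · rw [← map_iterComm, show (6 : ℕ) = 1 + 5 from rfl, iterComm_succ_inl]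
    have h1 : iterComm x y (1 + k) = 1 := iterComm_one_of_le x y (by omega) hk
    rw [iterComm_succ_inl] at h1
    have h2 : iterD (al y) (iterComm x y 1).left k = 1 :=
      SemidirectProduct.inl_injective (h1.trans (map_one _).symm)
    have h3 := core y _ k h2
    rw [← iterComm_succ_inl]
    rw [map_iterComm, iterComm_add, ← map_iterComm, iterComm_one_inl x y]
    have h4 : Wr.map E.bar (SemidirectProduct.inl (iterComm x y 1).left)
        = SemidirectProduct.inl (E.bar.compLeft (ZMod 4) (iterComm x y 1).left) := by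
      apply SemidirectProduct.ext
      · rfl
      · rfl
    rw [h4, iterComm_inl, h3, map_one]

/-- The base element of the witness. -/
def wl (i : ZMod 4) : L :=
  if i = 0 then L.mk 0 (by norm_num) else if i = 1 then L.mk 51 (by norm_num)
  else if i = 2 then L.mk 51 (by norm_num) else L.mk 22 (by norm_num)

/-- The shift element of the witness. -/
def wy : Wr L := SemidirectProduct.inr (Multiplicative.ofAdd (3 : ZMod 4))

lemma not_VR_WrL : ¬ VR 10 (Wr L) := by
  intro h
  have h1 := h (SemidirectProduct.inl wl) wy ⟨11, by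
    rw [iterComm_inl]
    have : iterD (al wy) wl 11 = 1 := by decide +kernel
    rw [this, map_one]⟩
  rw [iterComm_inl] at h1
  have h2 : iterD (al wy) wl 10 = 1 :=
    SemidirectProduct.inl_injective (h1.trans (map_one _).symm)
  have h3 : iterD (al wy) wl 10 ≠ 1 := by decide +kernel
  exact h3 h2

lemma VR_of_equiv {G H : Type*} [Group G] [Group H] (e : G ≃* H) (r : ℕ) (h : VR r G) :
    VR r H := by
  rintro x y ⟨k, hk⟩
  have h1 : iterComm (e.symm x) (e.symm y) r = 1 := by
    apply h
    refine ⟨k, ?_⟩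
    have := map_iterComm e.symm.toMonoidHom x y k
    rw [hk, map_one] at this
    exact this.symm
  have h2 := map_iterComm e.toMonoidHom (e.symm x) (e.symm y) r
  rw [h1, map_one] at h2
  simpa using h2.symm

/-- Main theorem. -/
theorem main : ∃ (G : Type) (_ : Group G) (_ : Finite G) (N : Subgroup G) (_ : N.Normal),
    VR 9 G ∧ ¬ VR 10 (G ⧸ N) := by
  refine ⟨Wr E, inferInstance, inferInstance, (Wr.map E.bar).ker, inferInstance, VR_WrE, ?_⟩
  intro h
  exact not_VR_WrL (VR_of_equiv (QuotientGroup.quotientKerEquivOfSurjective (Wr.map E.bar)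
    (Wr.map_surjective _ E.bar_surjective)) 10 h)

end EngelQ
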