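import Pool.Agent.Lib.EngelQ.Enum

/-!
# There are no lifts to `E` of chains of length five over the plain shift
-/

namespace EngelQ

section maps

variable {A A' : Type*} [Group A] [Group A']

/-- Componentwise image. -/
def map4 (f : A →* A') : A × A × A × A →* A' × A' × A' × A' where
  toFun s := (f s.1, f s.2.1, f s.2.2.1, f s.2.2.2)
  map_one' := by ext <;> simp
  map_mul' x y := by ext <;> simp

lemma map4_apply (f : A →* A') (s : A × A × A × A) :
    map4 f s = (f s.1, f s.2.1, f s.2.2.1, f s.2.2.2) := rfl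

lemma map4_nxt (f : A →* A') (x : A) (s : A × A × A × A) :
    map4 f (nxt x s) = nxt (f x) (map4 f s) := by
  simp only [map4_apply, nxt, map_mul]

lemma map_pr (f : A →* A') (s : A × A × A × A) : f (pr s) = pr (map4 f s) := by
  simp only [map4_apply, pr, map_mul]

lemma map4_sg4 (f : A →* A') (π : A) (s : A × A × A × A) :
    map4 f (sg4 π s) = sg4 (f π) (map4 f s) := by
  simp only [map4_apply, sg4_apply, map_mul, map_inv]

/-- The system of equations coming from a chain of length five. -/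
structure Sys (v u h g k m n : A) : Prop where
  /-- closure zero -/
  c0 : h * pr (u, u, u, u) = v⁻¹ * h * v
  /-- closure one -/
  c1 : g * pr (nxt h (u, u, u, u)) = v⁻¹ * g * v
  /-- closure two -/
  c2 : k * pr (nxt g (nxt h (u, u, u, u))) = v⁻¹ * k * v
  /-- closure three -/
  c3 : m * pr (nxt k (nxt g (nxt h (u, u, u, u)))) = v⁻¹ * m * v
  /-- closure four -/
  c4 : n * pr (nxt m (nxt k (nxt g (nxt h (u, u, u, u))))) = v⁻¹ * n * v

lemma Sys.map (f : A →* A') {v u h g k m n : A} (S : Sys v u h g k m n) :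
    Sys (f v) (f u) (f h) (f g) (f k) (f m) (f n) := by
  have e0 : map4 f (u, u, u, u) = (f u, f u, f u, f u) := rfl
  refine ⟨?_, ?_, ?_, ?_, ?_⟩
  · have := congrArg f S.c0
    simpa only [map_mul, map_inv, map_pr, map4_nxt, e0] using this
  · have := congrArg f S.c1
    simpa only [map_mul, map_inv, map_pr, map4_nxt, e0] using this
  · have := congrArg f S.c2
    simpa only [map_mul, map_inv, map_pr, map4_nxt, e0] using this
  · have := congrArg f S.c3
    simpa only [map_mul, map_inv, map_pr, map4_nxt, e0] using this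
  · have := congrArg f S.c4
    simpa only [map_mul, map_inv, map_pr, map4_nxt, e0] using this

end maps

/-- The letters. -/
def XX (v u h g k m : E) : ℕ → E
  | 0 => u
  | 1 => h
  | 2 => g
  | 3 => k
  | 4 => m
  | _ => v

lemma wsum_of_closure (X : ℕ → E) (v Y : E) (w : List ℕ) (hv : v.g = 1)
    (H : Y * evW X w = v⁻¹ * Y * v) (p : Fin 5) :
    wsum (fun b => (X b).g) (fun b => (X b).f) w (act Y.g p) + v.f p + 2 * v.f (act Y.g p) = 0 := by
  have h1 := congrArg (fun a : E => a.f p) H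
  simp only [E.f_mul, E.f_inv, E.g_mul, E.g_inv, hv, inv_one, one_mul, act_one] at h1
  rw [f_evW] at h1
  have h3 := E.three_f hv (act Y.g p)
  linear_combination h1 + h3

lemma const_of_chkV (bar : ℕ → L) (F : ℕ → Fin 5 → ZMod 9) (hF : ∀ b p, 3 * F b p = 3 * c (bar b) p)
    (h5 : ∀ p, 3 * F 5 p = 0) (hE : ∀ j ≤ 3, ∀ p, EqHolds bar F j p) (q : Fin 5)
    (cs : List (ℕ × ℕ × ℕ)) (hcs : chkV (fun b => (bar b).val) q.val cs = true) :
    F 5 q = F 5 0 := by
  unfold chkV at hcs
  simp only [Bool.and_eq_true] at hcs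
  obtain ⟨h1, h2, h3⟩ := hcs
  set x : ℕ → ZMod 9 := fun i => F (i / 5) ⟨i % 5, Nat.mod_lt _ (by norm_num)⟩ with hx
  have hx' : ∀ b (p : Fin 5), x (5 * b + p.val) = F b p := by
    intro b p
    have e1 : (5 * b + p.val) / 5 = b := by have := p.2; omega
    have e2 : (5 * b + p.val) % 5 = p.val := by have := p.2; omega
    simp only [hx, e1, e2]
  have hrow := ev_certRow bar F x hx' 3 hE cs h1
  have hm := ev_mod x (cvT fun b => (bar b).val) (certRow (fun b => (bar b).val) cs) (tgt q.val) 0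
    (fun i _ _ => by simp only [hx, cvT]; exact hF _ _) h2
  rw [hrow] at hm
  have h4 := Nat.eq_of_beq_eq_true h3
  have h5' : (3 : ZMod 9) * (csum (cvT fun b => (bar b).val) 0
      (certRow (fun b => (bar b).val) cs) : ℕ) = 0 := by
    obtain ⟨t, ht⟩ := Nat.dvd_of_mod_eq_zero h4
    rw [ht]
    push_cast
    have : (3 : ZMod 9) * 3 = 0 := by decide +kernel
    rw [← mul_assoc, this, zero_mul]
  rw [h5', add_zero] at hm
  have hlen : (inc 2 25 (List.replicate 30 0)).length = 30 := by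
    rw [length_inc, List.length_replicate]
  unfold tgt at hm
  have hq := q.2
  rw [ev_inc _ _ _ _ _ (by rw [hlen]; omega),
    ev_inc _ _ _ _ _ (by rw [List.length_replicate]; norm_num), ev_replicate] at hm
  have e1 : x (0 + (25 + q.val)) = F 5 q := by rw [← hx']; congr 1; simp
  have e2 : x (0 + 25) = F 5 0 := by rw [← hx']; rfl
  rw [e1, e2] at hm
  have h0 := h5 0
  push_cast at hm
  linear_combination (-1 : ZMod 9) * hm - h0

lemma absurd_of_chkF (bar : ℕ → L) (F : ℕ → Fin 5 → ZMod 9)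
    (hF : ∀ b p, 3 * F b p = 3 * c (bar b) p)
    (hE : ∀ j ≤ 4, ∀ p, EqHolds bar F j p)
    (cs : List (ℕ × ℕ × ℕ)) (hcs : chkF (fun b => (bar b).val) cs = true) : False := by
  unfold chkF at hcs
  simp only [Bool.and_eq_true, Bool.not_eq_true'] at hcs
  obtain ⟨h1, h2, h3⟩ := hcs
  set x : ℕ → ZMod 9 := fun i => F (i / 5) ⟨i % 5, Nat.mod_lt _ (by norm_num)⟩ with hx
  have hx' : ∀ b (p : Fin 5), x (5 * b + p.val) = F b p := by
    intro b p
    have e1 : (5 * b + p.val) / 5 = b := by have := p.2; omega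
    have e2 : (5 * b + p.val) % 5 = p.val := by have := p.2; omega
    simp only [hx, e1, e2]
  have hrow := ev_certRow bar F x hx' 4 hE cs h1
  have hm := ev_mod x (cvT fun b => (bar b).val) (certRow (fun b => (bar b).val) cs)
    (List.replicate 30 0) 0 (fun i _ _ => by simp only [hx, cvT]; exact hF _ _) h2
  rw [hrow, ev_replicate, zero_add] at hm
  have h4 : ((3 * csum (cvT fun b => (bar b).val) 0
      (certRow (fun b => (bar b).val) cs) : ℕ) : ZMod 9) = 0 := by
    push_cast
    exact hm.symm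
  rw [ZMod.natCast_eq_zero_iff] at h4
  have h5 : csum (cvT fun b => (bar b).val) 0 (certRow (fun b => (bar b).val) cs) % 3 = 0 := by
    omega
  rw [h5] at h3
  simp at h3

lemma PW0 : PW 0 = prW W0 := rfl

lemma sys_absurd {v u h g k m n : E} (hv : v.g = 1) (hu : u.g = 1) (S : Sys v u h g k m n)
    (h9 : h.g.val = 9) (d : ℕ × ℕ × ℕ × List (ℕ × ℕ × ℕ) × List (ℕ × ℕ × ℕ) × List (ℕ × ℕ × ℕ) ×
    List (ℕ × ℕ × ℕ) × List (ℕ × ℕ × ℕ)) (hd : chkNode d = true) (h1 : d.1 = g.g.val)
    (h2 : d.2.1 = k.g.val) (h3 : d.2.2.1 = m.g.val) : False := by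
  set X := XX v u h g k m with hX
  set bar : ℕ → L := fun b => (X b).g with hbar
  set F : ℕ → Fin 5 → ZMod 9 := fun b => (X b).f with hFd
  have hb : (fun b => (bar b).val) = barT 9 d.1 d.2.1 d.2.2.1 := by
    funext b
    rw [h1, h2, h3, ← h9]
    rcases b with _ | _ | _ | _ | _ | b
    · simp [hbar, hX, XX, barT, hu]
    · rfl
    · rfl
    · rfl
    · rfl
    · simp [hbar, hX, XX, barT, hv]
  have e0 : evW4 X W0 = (u, u, u, u) := by
    simp [evW4, W0, evW, hX, XX]
  have e1 : evW4 X W1 = nxt h (u, u, u, u) := by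
    rw [W1, evW4_nxtW, e0]; rfl
  have e2 : evW4 X W2 = nxt g (nxt h (u, u, u, u)) := by
    rw [W2, evW4_nxtW, e1]; rfl
  have e3 : evW4 X W3 = nxt k (nxt g (nxt h (u, u, u, u))) := by
    rw [W3, evW4_nxtW, e2]; rfl
  have e4 : evW4 X W4 = nxt m (nxt k (nxt g (nxt h (u, u, u, u)))) := by
    rw [W4, evW4_nxtW, e3]; rfl
  have p0 : evW X (PW 0) = pr (u, u, u, u) := by
    rw [show PW 0 = prW W0 from rfl, evW_prW, e0]
  have p1 : evW X (PW 1) = pr (nxt h (u, u, u, u)) := by
    rw [show PW 1 = prW W1 from rfl, evW_prW, e1]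
  have p2 : evW X (PW 2) = pr (nxt g (nxt h (u, u, u, u))) := by
    rw [show PW 2 = prW W2 from rfl, evW_prW, e2]
  have p3 : evW X (PW 3) = pr (nxt k (nxt g (nxt h (u, u, u, u)))) := by
    rw [show PW 3 = prW W3 from rfl, evW_prW, e3]
  have p4 : evW X (PW 4) = pr (nxt m (nxt k (nxt g (nxt h (u, u, u, u))))) := by
    rw [show PW 4 = prW W4 from rfl, evW_prW, e4]
  have hF : ∀ b p, 3 * F b p = 3 * c (bar b) p := fun b p => (X b).hf p
  have hE3 : ∀ j ≤ 3, ∀ p, EqHolds bar F j p := by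
    intro j hj p
    interval_cases j
    · exact wsum_of_closure X v h (PW 0) hv (by rw [p0]; exact S.c0) p
    · exact wsum_of_closure X v g (PW 1) hv (by rw [p1]; exact S.c1) p
    · exact wsum_of_closure X v k (PW 2) hv (by rw [p2]; exact S.c2) p
    · exact wsum_of_closure X v m (PW 3) hv (by rw [p3]; exact S.c3) p
  have h5 : ∀ p, 3 * F 5 p = 0 := fun p => E.three_f hv p
  unfold chkNode at hd
  simp only [Bool.and_eq_true] at hd
  rw [← hb] at hd
  obtain ⟨d1, d2, d3, d4, d5⟩ := hd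
  have hconst : ∀ q, F 5 q = F 5 0 := by
    intro q
    fin_cases q
    · rfl
    · exact const_of_chkV bar F hF h5 hE3 1 _ d1
    · exact const_of_chkV bar F hF h5 hE3 2 _ d2
    · exact const_of_chkV bar F hF h5 hE3 3 _ d3
    · exact const_of_chkV bar F hF h5 hE3 4 _ d4
  refine absurd_of_chkF bar F hF ?_ _ d5
  intro j hj p
  rcases Nat.lt_or_ge j 4 with hj' | hj'
  · exact hE3 j (by omega) p
  · have hj4 : j = 4 := by omega
    subst hj4
    have h6 := wsum_of_closure X v n (PW 4) hv (by rw [p4]; exact S.c4) (act n.g⁻¹ p)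
    have h7 : act n.g (act n.g⁻¹ p) = p := by
      rw [← act_mul, inv_mul_cancel, act_one]
    rw [h7] at h6
    have h8 : eqX bar 4 = 1 := rfl
    unfold EqHolds
    rw [h8, act_one]
    have h9' : v.f (act n.g⁻¹ p) = v.f p := by
      have a1 := hconst (act n.g⁻¹ p)
      have a2 := hconst p
      exact a1.trans a2.symm
    rw [h9'] at h6
    exact h6

lemma forPred_sound {s : L × L × L × L} {f : ℕ → ℕ → ℕ → ℕ → Bool}
    (h : forPred s.1.val s.2.1.val s.2.2.1.val s.2.2.2.val f = true) (hs : pr s = 1) (x : L) :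
    f (nxt x s).1.val (nxt x s).2.1.val (nxt x s).2.2.1.val (nxt x s).2.2.2.val = true := by
  unfold forPred at h
  simp only [force_eq] at h
  have h1 : prT s.1.val s.2.1.val s.2.2.1.val s.2.2.2.val = 0 := congrArg L.val hs
  rw [h1] at h
  simp only [Nat.beq_refl, Bool.not_true, Bool.false_or] at h
  rw [allLt_iff] at h
  exact h x.val x.val_lt

lemma nxt_const {A : Type*} [Group A] (x : A) : nxt x ((1 : A), (1 : A), (1 : A), (1 : A)) =
    (x, x, x, x) := by
  simp [nxt]

/-- There is no solution of the system with `h` outside the kernel. -/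
theorem noSys {v u h g k m n : E} (hv : v.g = 1) (hu : u.g = 1) (S : Sys v u h g k m n) :
    h.g = 1 := by
  by_contra hh
  -- the image in `L`
  have SL := S.map E.bar
  simp only [E.bar_apply, hv, hu] at SL
  have hP1 : pr (nxt h.g ((1 : L), (1 : L), (1 : L), (1 : L))) = 1 := by
    have := SL.c1
    simpa using this
  rw [nxt_const] at hP1
  have hc := (allLt_iff _ _).1 chkInv h.g.val h.g.val_lt
  have hc1 : Nat.beq h.g.val 0 = false := by
    rw [Bool.eq_false_iff]
    intro h8
    exact hh (L.ext (Nat.eq_of_beq_eq_true h8))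
  have hc2 : prT h.g.val h.g.val h.g.val h.g.val = 0 := congrArg L.val hP1
  rw [hc1, hc2] at hc
  simp only [Nat.beq_refl, Bool.not_true, Bool.false_or, Bool.not_eq_true'] at hc
  have hc3 : ∃ x : L, (x⁻¹ * (h.g * x)).val = 9 := by
    by_contra hne
    push Not at hne
    rw [Bool.eq_false_iff] at hc
    apply hc
    rw [allLt_iff]
    intro i hi
    have := hne (L.mk i hi)
    simp only [L.val_mul, L.val_inv, L.val_mk] at this
    rw [Bool.not_eq_true', Bool.eq_false_iff]
    intro h8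
    exact this (Nat.eq_of_beq_eq_true h8)
  obtain ⟨x, hx⟩ := hc3
  obtain ⟨y, hy⟩ := E.bar_surjective x
  have S' := S.map (sg1 y)
  have hy' : y.g = x := hy
  have hv' : (sg1 y v).g = 1 := by simp [sg1_apply, hv]
  have hu' : (sg1 y u).g = 1 := by simp [sg1_apply, hu]
  have h9 : (sg1 y h).g.val = 9 := by
    rw [← hx, sg1_apply, E.g_mul, E.g_mul, E.g_inv, hy', mul_assoc]
  revert S' hv' hu' h9
  generalize sg1 y v = v'
  generalize sg1 y u = u'
  generalize sg1 y h = h'
  generalize sg1 y g = g'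
  generalize sg1 y k = k'
  generalize sg1 y m = m'
  generalize sg1 y n = n'
  intro S' hv' hu' h9
  have SL' := S'.map E.bar
  simp only [E.bar_apply, hv', hu'] at SL'
  obtain ⟨-, c1, c2, c3, c4⟩ := SL'
  rw [nxt_const] at c1 c2 c3 c4
  simp only [inv_one, one_mul, mul_one, mul_eq_left] at c1 c2 c3 c4
  have hE := chkEnum
  have hE1 : forPred ((h'.g, h'.g, h'.g, h'.g) : L × L × L × L).1.val
      ((h'.g, h'.g, h'.g, h'.g) : L × L × L × L).2.1.val
      ((h'.g, h'.g, h'.g, h'.g) : L × L × L × L).2.2.1.val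
      ((h'.g, h'.g, h'.g, h'.g) : L × L × L × L).2.2.2.val ef1 = true := by
    simp only [h9]
    exact hE
  have hE2 := forPred_sound hE1 c1 g'.g
  unfold ef1 at hE2
  have hE3 := forPred_sound hE2 c2 k'.g
  unfold ef2 at hE3
  have hE4 := forPred_sound hE3 c3 m'.g
  unfold ef3 at hE4
  simp only [force_eq] at hE4
  have hc4 : prT (nxt m'.g (nxt k'.g (nxt g'.g (h'.g, h'.g, h'.g, h'.g)))).1.val
      (nxt m'.g (nxt k'.g (nxt g'.g (h'.g, h'.g, h'.g, h'.g)))).2.1.val
      (nxt m'.g (nxt k'.g (nxt g'.g (h'.g, h'.g, h'.g, h'.g)))).2.2.1.val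
      (nxt m'.g (nxt k'.g (nxt g'.g (h'.g, h'.g, h'.g, h'.g)))).2.2.2.val = 0 :=
    congrArg L.val c4
  rw [hc4] at hE4
  simp only [Nat.beq_refl, Bool.not_true, Bool.false_or] at hE4
  unfold inData at hE4
  rw [List.any_eq_true] at hE4
  obtain ⟨d, hd, hd2⟩ := hE4
  simp only [Bool.and_eq_true] at hd2
  obtain ⟨a1, a2, a3⟩ := hd2
  have hD := chkData
  rw [List.all_eq_true] at hD
  exact sys_absurd hv' hu' S' h9 d (hD d hd) (Nat.eq_of_beq_eq_true a1)
    (Nat.eq_of_beq_eq_true a2) (Nat.eq_of_beq_eq_true a3)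

end EngelQ
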