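import Pool.Agent.Lib.EngelQ.Chain

/-!
# The wreath products with a cyclic group of order four
-/

namespace EngelQ

/-- The cyclic group of order four acts on the functions `ZMod 4 → A` by translations. -/
def shiftHom (A : Type) [Group A] : Multiplicative (ZMod 4) →* MulAut (ZMod 4 → A) where
  toFun j :=
    { toFun := fun l i => l (i + Multiplicative.toAdd j)
      invFun := fun l i => l (i - Multiplicative.toAdd j)
      left_inv := fun l => by funext i; simp
      right_inv := fun l => by funext i; simp
      map_mul' := fun _ _ => rfl }
  map_one' := by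
    ext l i
    simp
  map_mul' j j' := by
    ext l i
    simp [add_assoc]

/-- The wreath product of `A` with the cyclic group of order four. -/
abbrev Wr (A : Type) [Group A] : Type := (ZMod 4 → A) ⋊[shiftHom A] Multiplicative (ZMod 4)

section

variable {A B : Type} [Group A] [Group B]

lemma shiftHom_apply (j : Multiplicative (ZMod 4)) (l : ZMod 4 → A) (i : ZMod 4) :
    shiftHom A j l i = l (i + Multiplicative.toAdd j) := rfl

/-- Functoriality of the wreath product. -/
def Wr.map (f : A →* B) : Wr A →* Wr B :=
  SemidirectProduct.map (f.compLeft (ZMod 4)) (MonoidHom.id _) (by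
    intro g
    ext l i
    rfl)

lemma Wr.map_left (f : A →* B) (x : Wr A) (i : ZMod 4) : (Wr.map f x).left i = f (x.left i) := rfl
lemma Wr.map_right (f : A →* B) (x : Wr A) : (Wr.map f x).right = x.right := rfl

lemma Wr.map_surjective (f : A →* B) (hf : Function.Surjective f) :
    Function.Surjective (Wr.map f) := by
  intro y
  choose g hg using fun i => hf (y.left i)
  refine ⟨⟨g, y.right⟩, ?_⟩
  apply SemidirectProduct.ext
  · funext i
    exact hg i
  · rfl

instance [Finite A] : Finite (Wr A) := by
  have : Function.Injective (fun x : Wr A => (x.left, x.right)) := by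
    intro x y h
    simp only [Prod.mk.injEq] at h
    exact SemidirectProduct.ext h.1 h.2
  have h4 : Finite (Multiplicative (ZMod 4)) := inferInstanceAs (Finite (ZMod 4))
  exact Finite.of_injective _ this

/-- The action of `y` on the base group by conjugation. -/
def al (y : Wr A) (l : ZMod 4 → A) (i : ZMod 4) : A :=
  (y.left (i - Multiplicative.toAdd y.right))⁻¹ * l (i - Multiplicative.toAdd y.right) *
    y.left (i - Multiplicative.toAdd y.right)

lemma conj_inl (y : Wr A) (l : ZMod 4 → A) :
    y⁻¹ * SemidirectProduct.inl l * y = SemidirectProduct.inl (al y l) := by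
  apply SemidirectProduct.ext
  · funext i
    simp only [SemidirectProduct.mul_left, SemidirectProduct.inv_left, SemidirectProduct.mul_right,
      SemidirectProduct.inv_right, SemidirectProduct.left_inl, SemidirectProduct.right_inl,
      Pi.mul_apply, shiftHom_apply, al, mul_one, toAdd_inv, Pi.inv_apply, ← sub_eq_add_neg]
  · simp

lemma iterComm_inl (y : Wr A) (l : ZMod 4 → A) (k : ℕ) :
    iterComm (SemidirectProduct.inl l : Wr A) y k
      = SemidirectProduct.inl (iterD (al y) l k) := by
  rw [iterComm_eq_iterD]
  symm
  exact iterD_map (SemidirectProduct.inl : (ZMod 4 → A) →* Wr A) (al y)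
    (fun z => y⁻¹ * z * y) (fun z => (conj_inl y z).symm) l k

lemma iterComm_one_inl (x y : Wr A) :
    iterComm x y 1 = SemidirectProduct.inl (iterComm x y 1).left := by
  apply SemidirectProduct.ext
  · simp
  · simp only [iterComm, SemidirectProduct.mul_right, SemidirectProduct.inv_right,
      SemidirectProduct.right_inl]
    rw [mul_assoc, mul_assoc, mul_comm y.right⁻¹, mul_assoc, mul_inv_cancel, mul_one,
      inv_mul_cancel]

lemma iterComm_succ_inl (x y : Wr A) (k : ℕ) :
    iterComm x y (1 + k)
      = SemidirectProduct.inl (iterD (al y) (iterComm x y 1).left k) := by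
  rw [iterComm_add, iterComm_one_inl x y, iterComm_inl]
  simp

/-- The coordinates of a base element along the orbit of `i`, suitably conjugated. -/
def Psi (y : Wr A) (i : ZMod 4) : (ZMod 4 → A) →* A × A × A × A :=
  (Pi.evalMonoidHom _ i).prod
    (((sg1 (y.left (i - Multiplicative.toAdd y.right))).comp
        (Pi.evalMonoidHom _ (i - Multiplicative.toAdd y.right))).prod
    (((sg1 (y.left (i - Multiplicative.toAdd y.right - Multiplicative.toAdd y.right) *
          y.left (i - Multiplicative.toAdd y.right))).comp
        (Pi.evalMonoidHom _ (i - Multiplicative.toAdd y.right - Multiplicative.toAdd y.right))).prod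
    ((sg1 (y.left (i - Multiplicative.toAdd y.right - Multiplicative.toAdd y.right -
            Multiplicative.toAdd y.right) *
          y.left (i - Multiplicative.toAdd y.right - Multiplicative.toAdd y.right) *
          y.left (i - Multiplicative.toAdd y.right))).comp
        (Pi.evalMonoidHom _ (i - Multiplicative.toAdd y.right - Multiplicative.toAdd y.right -
          Multiplicative.toAdd y.right)))))

/-- The twist belonging to `Psi`. -/
def tw (y : Wr A) (i : ZMod 4) : A :=
  y.left i *
    y.left (i - Multiplicative.toAdd y.right - Multiplicative.toAdd y.right -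
      Multiplicative.toAdd y.right) *
    y.left (i - Multiplicative.toAdd y.right - Multiplicative.toAdd y.right) *
    y.left (i - Multiplicative.toAdd y.right)

lemma four_sub (i j : ZMod 4) : i - j - j - j - j = i := by
  revert i j
  decide +kernel

lemma Psi_al (y : Wr A) (i : ZMod 4) (l : ZMod 4 → A) :
    Psi y i (al y l) = sg4 (tw y i) (Psi y i l) := by
  simp only [Psi, sg4_apply, MonoidHom.prod_apply, MonoidHom.comp_apply, Pi.evalMonoidHom_apply,
    sg1_apply, al, tw]
  rw [four_sub]
  refine Prod.ext rfl (Prod.ext ?_ (Prod.ext ?_ ?_))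
  · simp only [mul_inv_rev, mul_assoc]
  · simp only [mul_inv_rev, mul_assoc]
  · simp only [mul_inv_rev, mul_assoc]

lemma Psi_map (f : A →* B) (y : Wr A) (i : ZMod 4) (l : ZMod 4 → A) :
    Psi (Wr.map f y) i (f.compLeft (ZMod 4) l) = map4 f (Psi y i l) := by
  simp only [Psi, map4_apply, MonoidHom.prod_apply, MonoidHom.comp_apply, Pi.evalMonoidHom_apply,
    sg1_apply, Wr.map_left, Wr.map_right, map_mul, map_inv, MonoidHom.compLeft_apply]
  rfl

lemma tw_map (f : A →* B) (y : Wr A) (i : ZMod 4) : tw (Wr.map f y) i = f (tw y i) := by
  simp only [tw, Wr.map_left, Wr.map_right, map_mul]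

end

end EngelQ
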